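import Pool.Agent.W506.PM.N1

/-!
# A graded Clifford algebra over a field containing `i`, `i ^ 2 = -1`: presentation

Generators `x_0 = c`, `x_1 = a`, `x_2 = d`, `x_3 = b`.
-/

universe u

namespace Pool.Agent.V5helper30.PM

open Pool.Agent.W506.PM

variable {k : Type u} [Field k]

/-- The matrix `mu` with all entries `1`. -/
def mu1 (k : Type u) [Field k] : Fin 4 → Fin 4 → k := fun _ _ => 1

/-- The four symmetric matrices. -/
def MM (i0 : k) : Fin 4 → Matrix (Fin 4) (Fin 4) k :=
  ![!![2, 0, 0, 0; 0, 2, 0, 0; 0, 0, 0, 2; 0, 0, 2, 2 * (-6 + 2 * i0)],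
    !![0, 0, 0, 2 * i0; 0, 2 * (3 + 2 * i0), 0, 0; 0, 0, 2, 0; 2 * i0, 0, 0, -(2 * (2 + 4 * i0))],
    !![0, 1, 0, 1; 1, 2 * (-1 + i0), -1, 0; 0, -1, 0, 1; 1, 0, 1, -4],
    !![0, 0, 0, 0; 0, 0, 0, 1; 0, 0, 0, 0; 0, 1, 0, 0]]

/-- The tensor of the six relations. -/
def rr (i0 : k) : Fin 6 → Fin 4 → Fin 4 → k :=
  ![![![0, 0, 1, 0], ![0, 0, 0, 0], ![1, 0, 0, 0], ![0, 0, 0, 0]],
    ![![0, 1, 0, 0], ![1, 0, 1, 0], ![0, 1, 0, 0], ![0, 0, 0, 0]],
    ![![0, -1, 0, 1], ![-1, 0, 0, 0], ![0, 0, -(2 * i0), 0], ![1, 0, 0, 0]],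
    ![![-2, -1, 0, 0], ![-1, 0, 0, 0], ![0, 0, 0, 1], ![0, 0, 1, 0]],
    ![![-1, 1 - i0, 0, 0], ![1 - i0, 1, 0, 0], ![0, 0, -(3 + 2 * i0), 0], ![0, 0, 0, 0]],
    ![![6 - 2 * i0, 2, 0, 0], ![2, 0, 0, 0], ![0, 0, 2 + 4 * i0, 0], ![0, 0, 0, 1]]]

theorem rr_symm (i0 : k) (i : Fin 6) (j l : Fin 4) : rr i0 i j l = rr i0 i l j := by
  fin_cases i <;> fin_cases j <;> fin_cases l <;> rfl

/-- The six relations for four elements of an algebra. -/
structure Rels (i0 : k) {E : Type u} [Ring E] [Algebra k E] (c a d b : E) : Prop where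
  cd : c * d + d * c = 0
  ad : a * d + d * a = -(a * c + c * a)
  bc : b * c + c * b = (2 * i0) • (d * d) + (a * c + c * a)
  bd : b * d + d * b = (2 : k) • (c * c) + (a * c + c * a)
  aa : a * a = c * c + (3 + 2 * i0) • (d * d) + (-1 + i0) • (a * c + c * a)
  bb : b * b = (-6 + 2 * i0) • (c * c) - (2 + 4 * i0) • (d * d) - (2 : k) • (a * c + c * a)

theorem rels_iff (i0 : k) {E : Type u} [Ring E] [Algebra k E] (y : Fin 4 → E) :
    (∀ i, ∑ j, ∑ l, rr i0 i j l • (y j * y l) = 0) ↔ Rels i0 (y 0) (y 1) (y 2) (y 3) := by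
  constructor
  · intro h
    have h0 := h 0
    have h1 := h 1
    have h2 := h 2
    have h3 := h 3
    have h4 := h 4
    have h5 := h 5
    simp only [Fin.sum_univ_four, rr, Matrix.cons_val_zero, Matrix.cons_val_one,
      Matrix.cons_val] at h0 h1 h2 h3 h4 h5
    constructor
    · linear_combination (norm := module) h0
    · linear_combination (norm := module) h1
    · linear_combination (norm := module) h2
    · linear_combination (norm := module) h3
    · linear_combination (norm := module) h4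
    · linear_combination (norm := module) h5
  · intro h i
    fin_cases i
    · have := h.cd
      simp [Fin.sum_univ_four, rr]
      linear_combination (norm := module) this
    · have := h.ad
      simp [Fin.sum_univ_four, rr]
      linear_combination (norm := module) this
    · have := h.bc
      simp [Fin.sum_univ_four, rr]
      linear_combination (norm := module) this
    · have := h.bd
      simp [Fin.sum_univ_four, rr]
      linear_combination (norm := module) this
    · have := h.aa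
      simp [Fin.sum_univ_four, rr]
      linear_combination (norm := module) this
    · have := h.bb
      simp [Fin.sum_univ_four, rr]
      linear_combination (norm := module) this

/-- The algebra. -/
abbrev AA (i0 : k) : Type u := GAlg k (mu1 k) (MM i0)

section

variable (i0 : k)

/-- generators -/
noncomputable abbrev gg : Fin 4 → AA i0 := gx k (mu1 k) (MM i0)
/-- the element `c` -/
noncomputable abbrev ec : AA i0 := gx k (mu1 k) (MM i0) 0
/-- the element `a` -/
noncomputable abbrev ea : AA i0 := gx k (mu1 k) (MM i0) 1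
/-- the element `d` -/
noncomputable abbrev ed : AA i0 := gx k (mu1 k) (MM i0) 2
/-- the element `b` -/
noncomputable abbrev eb : AA i0 := gx k (mu1 k) (MM i0) 3

/-- the relation `(i, j)` with the sum written out -/
theorem g_rel4 (i j : Fin 4) (m0 m1 m2 m3 : k)
    (h0 : MM i0 0 i j = m0) (h1 : MM i0 1 i j = m1) (h2 : MM i0 2 i j = m2)
    (h3 : MM i0 3 i j = m3) :
    gg i0 i * gg i0 j + gg i0 j * gg i0 i
      = m0 • gy k (mu1 k) (MM i0) 0 + m1 • gy k (mu1 k) (MM i0) 1
        + m2 • gy k (mu1 k) (MM i0) 2 + m3 • gy k (mu1 k) (MM i0) 3 := by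
  have h := g_rel (mu1 k) (MM i0) i j
  rw [Fin.sum_univ_four, h0, h1, h2, h3] at h
  rw [← h, mu1, one_smul]

variable (h2 : (2 : k) ≠ 0)

include h2 in
theorem two_inj {E : Type u} [Ring E] [Algebra k E] {x y : E} (h : x + x = (2 : k) • y) :
    x = y := by
  rw [← two_smul k x] at h
  have := congrArg (fun z => (2 : k)⁻¹ • z) h
  simpa only [smul_smul, inv_mul_cancel₀ h2, one_smul] using this

include h2 in
theorem gy0_eq : gy k (mu1 k) (MM i0) 0 = ec i0 * ec i0 := by
  have h := g_rel4 i0 0 0 2 0 0 0 rfl rfl rfl rfl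
  simp only [zero_smul, zero_add, add_zero] at h
  exact (two_inj h2 h).symm

include h2 in
theorem gy1_eq : gy k (mu1 k) (MM i0) 1 = ed i0 * ed i0 := by
  have h := g_rel4 i0 2 2 0 2 0 0 rfl rfl rfl rfl
  simp only [zero_smul, zero_add, add_zero] at h
  exact (two_inj h2 h).symm

theorem gy2_eq : gy k (mu1 k) (MM i0) 2 = ea i0 * ec i0 + ec i0 * ea i0 := by
  have h := g_rel4 i0 1 0 0 0 1 0 rfl rfl rfl rfl
  simp only [zero_smul, zero_add, add_zero, one_smul] at h
  exact h.symm

theorem gy3_eq : gy k (mu1 k) (MM i0) 3 = ea i0 * eb i0 + eb i0 * ea i0 := by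
  have h := g_rel4 i0 1 3 0 0 0 1 rfl rfl rfl rfl
  simp only [zero_smul, zero_add, add_zero, one_smul] at h
  exact h.symm

include h2 in
theorem rels_AA : Rels i0 (ec i0) (ea i0) (ed i0) (eb i0) := by
  have e0 := gy0_eq i0 h2
  have e1 := gy1_eq i0 h2
  have e2 := gy2_eq i0
  constructor
  · have h := g_rel4 i0 0 2 0 0 0 0 rfl rfl rfl rfl
    rw [h]; simp only [zero_smul, add_zero]
  · have h := g_rel4 i0 1 2 0 0 (-1) 0 rfl rfl rfl rfl
    rw [h, e2]; module
  · have h := g_rel4 i0 3 0 0 (2 * i0) 1 0 rfl rfl rfl rfl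
    rw [h, e2, e1]; module
  · have h := g_rel4 i0 3 2 2 0 1 0 rfl rfl rfl rfl
    rw [h, e2, e0]; module
  · have h := g_rel4 i0 1 1 2 (2 * (3 + 2 * i0)) (2 * (-1 + i0)) 0 rfl rfl rfl rfl
    apply two_inj h2
    rw [h, e2, e1, e0]; module
  · have h := g_rel4 i0 3 3 (2 * (-6 + 2 * i0)) (-(2 * (2 + 4 * i0))) (-4) 0 rfl rfl rfl rfl
    apply two_inj h2
    rw [h, e2, e1, e0]; module

/-- A map out of `A(mu; M)`. -/
theorem hom_aux {n : ℕ} (μ : Fin n → Fin n → k) (M : Fin n → Matrix (Fin n) (Fin n) k)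
    {E : Type u} [Ring E] [Algebra k E] (x y : Fin n → E)
    (key : ∀ i j, x i * x j + μ i j • (x j * x i) = ∑ l, M l i j • y l) :
    ∃ f : GAlg k μ M →ₐ[k] E, (∀ i, f (gx k μ M i) = x i) ∧ ∀ l, f (gy k μ M l) = y l := by
  have hI : ∀ a ∈ (TwoSidedIdeal.span (grel k μ M)).asIdeal,
      FreeAlgebra.lift k (Sum.elim x y) a = 0 := by
    intro a ha
    rw [TwoSidedIdeal.mem_asIdeal] at ha
    have hle : TwoSidedIdeal.span (grel k μ M)
        ≤ TwoSidedIdeal.ker (FreeAlgebra.lift k (Sum.elim x y)) := by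
      rw [TwoSidedIdeal.span_le]
      rintro _ ⟨i, j, rfl⟩
      apply (TwoSidedIdeal.mem_ker _).2
      simp only [map_sub, map_add, map_mul, map_smul, map_sum, FreeAlgebra.lift_ι_apply,
        Sum.elim_inl, Sum.elim_inr]
      rw [key, sub_self]
    exact (TwoSidedIdeal.mem_ker _).1 (hle ha)
  refine ⟨Ideal.Quotient.liftₐ _ (FreeAlgebra.lift k (Sum.elim x y)) hI, fun i => ?_, fun l => ?_⟩
  · exact FreeAlgebra.lift_ι_apply (Sum.elim x y) (Sum.inl i)
  · exact FreeAlgebra.lift_ι_apply (Sum.elim x y) (Sum.inr l)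

/-- The universal property. -/
theorem up_AA (E : Type u) [Ring E] [Algebra k E] (x : Fin 4 → E)
    (h : Rels i0 (x 0) (x 1) (x 2) (x 3)) :
    ∃ f : AA i0 →ₐ[k] E, ∀ j, f (gx k (mu1 k) (MM i0) j) = x j := by
  obtain ⟨f, hf, -⟩ := hom_aux (mu1 k) (MM i0) x
    ![x 0 * x 0, x 2 * x 2, x 1 * x 0 + x 0 * x 1, x 1 * x 3 + x 3 * x 1] (by
      have hcd := h.cd
      have had := h.ad
      have hbc := h.bc
      have hbd := h.bd
      have haa := h.aa
      have hbb := h.bb
      intro i j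
      fin_cases i <;> fin_cases j <;> simp [Fin.sum_univ_four, mu1, MM]
      · module
      · module
      · linear_combination (norm := module) hcd
      · linear_combination (norm := module) hbc
      · linear_combination (norm := module) (2 : k) • haa
      · linear_combination (norm := module) had
      · linear_combination (norm := module) hcd
      · linear_combination (norm := module) had
      · module
      · linear_combination (norm := module) hbd
      · linear_combination (norm := module) hbc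
      · module
      · linear_combination (norm := module) hbd
      · linear_combination (norm := module) (2 : k) • hbb)
  exact ⟨f, hf⟩

include h2 in
theorem adjoin_AA : Algebra.adjoin k (Set.range (gx k (mu1 k) (MM i0))) = ⊤ := by
  rw [eq_top_iff, ← galg_adjoin]
  apply Algebra.adjoin_le
  have hx : ∀ i, gx k (mu1 k) (MM i0) i ∈ Algebra.adjoin k (Set.range (gx k (mu1 k) (MM i0))) :=
    fun i => Algebra.subset_adjoin ⟨i, rfl⟩
  rintro _ (⟨i, rfl⟩ | ⟨l, rfl⟩)
  · exact hx i
  · fin_cases l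
    · exact (gy0_eq i0 h2).symm ▸ Subalgebra.mul_mem _ (hx 0) (hx 0)
    · exact (gy1_eq i0 h2).symm ▸ Subalgebra.mul_mem _ (hx 2) (hx 2)
    · exact (gy2_eq i0).symm ▸ Subalgebra.add_mem _ (Subalgebra.mul_mem _ (hx 1) (hx 0))
        (Subalgebra.mul_mem _ (hx 0) (hx 1))
    · exact (gy3_eq i0).symm ▸ Subalgebra.add_mem _ (Subalgebra.mul_mem _ (hx 1) (hx 3))
        (Subalgebra.mul_mem _ (hx 3) (hx 1))

include h2 in
theorem isPres_AA : IsPres (gx k (mu1 k) (MM i0)) (rr i0) where
  rel := (rels_iff i0 _).2 (rels_AA i0 h2)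
  gen := adjoin_AA i0 h2
  up E _ _ y hy := up_AA i0 E y ((rels_iff i0 y).1 hy)

end

end Pool.Agent.V5helper30.PM
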