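import Mathlib

/-!
# Sixteen ordered products: they span, and in the Clifford algebra they are independent
-/

universe u v

namespace Pool.Agent.V5helper30.PM

section Span

variable {S : Type u} [CommRing S] {E : Type v} [Ring E] [Algebra S E]

/-- the ordered products -/
def ex (x : Fin 4 → E) (e : Fin 4 → Fin 2) : E :=
  x 0 ^ (e 0 : ℕ) * x 1 ^ (e 1 : ℕ) * x 2 ^ (e 2 : ℕ) * x 3 ^ (e 3 : ℕ)

theorem step_span (x : E) (T : Set E) (y : E)
    (hy : ∀ v ∈ Submodule.span S T, y * v ∈ Submodule.span S T)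
    (s : S) (hs : y * x + x * y = algebraMap S E s) :
    ∀ v ∈ Submodule.span S (T ∪ (x * ·) '' T), y * v ∈ Submodule.span S (T ∪ (x * ·) '' T) := by
  have hT : Submodule.span S T ≤ Submodule.span S (T ∪ (x * ·) '' T) :=
    Submodule.span_mono Set.subset_union_left
  have hx : ∀ v ∈ Submodule.span S T, x * v ∈ Submodule.span S (T ∪ (x * ·) '' T) := by
    intro v hv
    induction hv using Submodule.span_induction with
    | mem v hv => exact Submodule.subset_span (Or.inr ⟨v, hv, rfl⟩)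
    | zero => rw [mul_zero]; exact Submodule.zero_mem _
    | add a b _ _ ha hb => rw [mul_add]; exact Submodule.add_mem _ ha hb
    | smul c a _ ha => rw [mul_smul_comm]; exact Submodule.smul_mem _ _ ha
  intro v hv
  induction hv using Submodule.span_induction with
  | mem v hv =>
    rcases hv with hv | ⟨w, hw, rfl⟩
    · exact hT (hy v (Submodule.subset_span hv))
    · have e : y * (x * w) = s • w - x * (y * w) := by
        rw [Algebra.smul_def, ← hs]; noncomm_ring
      show y * (x * w) ∈ _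
      rw [e]
      exact Submodule.sub_mem _ (Submodule.smul_mem _ _ (hT (Submodule.subset_span hw)))
        (hx _ (hy _ (Submodule.subset_span hw)))
  | zero => rw [mul_zero]; exact Submodule.zero_mem _
  | add a b _ _ ha hb => rw [mul_add]; exact Submodule.add_mem _ ha hb
  | smul c a _ ha => rw [mul_smul_comm]; exact Submodule.smul_mem _ _ ha

theorem step_self (x : E) (T : Set E) (t : S) (ht : x * x = algebraMap S E t) :
    ∀ v ∈ Submodule.span S (T ∪ (x * ·) '' T), x * v ∈ Submodule.span S (T ∪ (x * ·) '' T) := by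
  have hT : Submodule.span S T ≤ Submodule.span S (T ∪ (x * ·) '' T) :=
    Submodule.span_mono Set.subset_union_left
  intro v hv
  induction hv using Submodule.span_induction with
  | mem v hv =>
    rcases hv with hv | ⟨w, hw, rfl⟩
    · exact Submodule.subset_span (Or.inr ⟨v, hv, rfl⟩)
    · show x * (x * w) ∈ _
      rw [← mul_assoc, ht, ← Algebra.smul_def]
      exact Submodule.smul_mem _ _ (hT (Submodule.subset_span hw))
  | zero => rw [mul_zero]; exact Submodule.zero_mem _
  | add a b _ _ ha hb => rw [mul_add]; exact Submodule.add_mem _ ha hb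
  | smul c a _ ha => rw [mul_smul_comm]; exact Submodule.smul_mem _ _ ha

theorem span_ex (x : Fin 4 → E) (s : Fin 4 → Fin 4 → S) (t : Fin 4 → S)
    (h1 : ∀ i j, x i * x j + x j * x i = algebraMap S E (s i j))
    (h2 : ∀ i, x i * x i = algebraMap S E (t i))
    (hx : Algebra.adjoin S (Set.range x) = ⊤) :
    Submodule.span S (Set.range (ex x)) = ⊤ := by
  let T3 : Set E := {1} ∪ (x 3 * ·) '' {1}
  let T2 : Set E := T3 ∪ (x 2 * ·) '' T3
  let T1 : Set E := T2 ∪ (x 1 * ·) '' T2
  let T0 : Set E := T1 ∪ (x 0 * ·) '' T1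
  have a33 : ∀ v ∈ Submodule.span S T3, x 3 * v ∈ Submodule.span S T3 :=
    step_self _ _ (t 3) (h2 3)
  have a22 : ∀ v ∈ Submodule.span S T2, x 2 * v ∈ Submodule.span S T2 :=
    step_self _ _ (t 2) (h2 2)
  have a32 : ∀ v ∈ Submodule.span S T2, x 3 * v ∈ Submodule.span S T2 :=
    step_span _ _ _ a33 (s 3 2) (h1 3 2)
  have a11 : ∀ v ∈ Submodule.span S T1, x 1 * v ∈ Submodule.span S T1 :=
    step_self _ _ (t 1) (h2 1)
  have a21 : ∀ v ∈ Submodule.span S T1, x 2 * v ∈ Submodule.span S T1 :=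
    step_span _ _ _ a22 (s 2 1) (h1 2 1)
  have a31 : ∀ v ∈ Submodule.span S T1, x 3 * v ∈ Submodule.span S T1 :=
    step_span _ _ _ a32 (s 3 1) (h1 3 1)
  have a00 : ∀ v ∈ Submodule.span S T0, x 0 * v ∈ Submodule.span S T0 :=
    step_self _ _ (t 0) (h2 0)
  have a10 : ∀ v ∈ Submodule.span S T0, x 1 * v ∈ Submodule.span S T0 :=
    step_span _ _ _ a11 (s 1 0) (h1 1 0)
  have a20 : ∀ v ∈ Submodule.span S T0, x 2 * v ∈ Submodule.span S T0 :=
    step_span _ _ _ a21 (s 2 0) (h1 2 0)
  have a30 : ∀ v ∈ Submodule.span S T0, x 3 * v ∈ Submodule.span S T0 :=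
    step_span _ _ _ a31 (s 3 0) (h1 3 0)
  have hall : ∀ j, ∀ v ∈ Submodule.span S T0, x j * v ∈ Submodule.span S T0 := by
    intro j; fin_cases j <;> assumption
  have htop : Submodule.span S T0 = ⊤ := by
    rw [eq_top_iff]
    intro u _
    have hu : u ∈ Algebra.adjoin S (Set.range x) := by rw [hx]; trivial
    have key : ∀ z ∈ Submodule.span S T0, u * z ∈ Submodule.span S T0 := by
      induction hu using Algebra.adjoin_induction with
      | mem y hy => obtain ⟨j, rfl⟩ := hy; exact hall j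
      | algebraMap c =>
        intro z hz
        rw [← Algebra.smul_def]; exact Submodule.smul_mem _ _ hz
      | add y z _ _ hy hz =>
        intro w hw
        rw [add_mul]; exact Submodule.add_mem _ (hy trivial w hw) (hz trivial w hw)
      | mul y z _ _ hy hz =>
        intro w hw
        rw [mul_assoc]; exact hy trivial _ (hz trivial w hw)
    have h1 : (1 : E) ∈ Submodule.span S T0 :=
      Submodule.subset_span (Or.inl (Or.inl (Or.inl (Or.inl rfl))))
    have := key 1 h1
    rwa [mul_one] at this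
  rw [eq_top_iff, ← htop, Submodule.span_le]
  have b3 : ∀ v ∈ T3, ∃ e3 : Fin 2, v = x 3 ^ (e3 : ℕ) := by
    rintro v (rfl | ⟨_, rfl, rfl⟩)
    · exact ⟨0, by simp⟩
    · exact ⟨1, by simp⟩
  have b2 : ∀ v ∈ T2, ∃ e2 e3 : Fin 2, v = x 2 ^ (e2 : ℕ) * x 3 ^ (e3 : ℕ) := by
    rintro v (hv | ⟨w, hw, rfl⟩)
    · obtain ⟨e3, rfl⟩ := b3 v hv
      exact ⟨0, e3, by simp⟩
    · obtain ⟨e3, rfl⟩ := b3 w hw
      exact ⟨1, e3, by simp⟩
  have b1 : ∀ v ∈ T1, ∃ e1 e2 e3 : Fin 2,
      v = x 1 ^ (e1 : ℕ) * (x 2 ^ (e2 : ℕ) * x 3 ^ (e3 : ℕ)) := by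
    rintro v (hv | ⟨w, hw, rfl⟩)
    · obtain ⟨e2, e3, rfl⟩ := b2 v hv
      exact ⟨0, e2, e3, by simp⟩
    · obtain ⟨e2, e3, rfl⟩ := b2 w hw
      exact ⟨1, e2, e3, by simp⟩
  rintro v (hv | ⟨w, hw, rfl⟩)
  · obtain ⟨e1, e2, e3, rfl⟩ := b1 v hv
    exact Submodule.subset_span ⟨![0, e1, e2, e3], by simp [ex, mul_assoc]⟩
  · obtain ⟨e1, e2, e3, rfl⟩ := b1 w hw
    exact Submodule.subset_span ⟨![1, e1, e2, e3], by simp [ex, mul_assoc]⟩

end Span

section Cl

variable {S : Type u} [CommRing S] [Nontrivial S] [Invertible (2 : S)]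

/-- A basis of the Clifford algebra indexed by finsets. -/
noncomputable def clBas (Q : QuadraticForm S (Fin 4 → S)) :
    Module.Basis (Finset (Fin 4)) S (CliffordAlgebra Q) :=
  ((Pi.basisFun S (Fin 4)).ExteriorAlgebra).map (CliffordAlgebra.equivExterior Q).symm

theorem cl_adjoin (Q : QuadraticForm S (Fin 4 → S)) :
    Algebra.adjoin S (Set.range fun i : Fin 4 =>
      CliffordAlgebra.ι Q (Pi.single i (1 : S))) = ⊤ := by
  rw [eq_top_iff, ← CliffordAlgebra.adjoin_range_ι]
  apply Algebra.adjoin_le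
  rintro _ ⟨v, rfl⟩
  have hv : v = ∑ i, v i • Pi.single i (1 : S) := by
    ext j
    simp [Finset.sum_apply, Pi.single_apply]
  rw [hv, map_sum]
  apply Subalgebra.sum_mem
  intro i _
  rw [map_smul]
  exact Subalgebra.smul_mem _ (Algebra.subset_adjoin (Set.mem_range_self i)) _

theorem cl_indep (Q : QuadraticForm S (Fin 4 → S)) :
    LinearIndependent S (ex fun i : Fin 4 => CliffordAlgebra.ι Q (Pi.single i (1 : S))) := by
  set x : Fin 4 → CliffordAlgebra Q := fun i => CliffordAlgebra.ι Q (Pi.single i (1 : S)) with hx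
  have hspan : Submodule.span S (Set.range (ex x)) = ⊤ :=
    span_ex x _ _ (fun i j => CliffordAlgebra.ι_mul_ι_add_swap _ _)
      (fun i => CliffordAlgebra.ι_sq_scalar Q _) (cl_adjoin Q)
  have hcard : Fintype.card (Fin 4 → Fin 2) = Module.finrank S (CliffordAlgebra Q) := by
    rw [Module.finrank_eq_card_basis (clBas Q)]
    simp
  have : Module.Finite S (CliffordAlgebra Q) := Module.Finite.of_basis (clBas Q)
  exact linearIndependent_of_top_le_span_of_card_eq_finrank hspan.ge hcard

end Cl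

end Pool.Agent.V5helper30.PM
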