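import Pool.Agent.V5helper30.PM.Cen
import Pool.Agent.V5helper30.PM.Cl

/-!
# A basis of a graded Clifford algebra with central `y_l`
-/

universe u

namespace Pool.Agent.V5helper30.PM

open Pool.Agent.W506.PM

section

variable {k : Type u} [Field k] (M : Fin 4 → Matrix (Fin 4) (Fin 4) k)

/-- The matrix of the quadratic form over the polynomial ring. -/
noncomputable def Bm : Matrix (Fin 4) (Fin 4) (MvPolynomial (Fin 4) k) :=
  fun i j => ∑ l, (M l i j / 2) • MvPolynomial.X l

/-- The quadratic form. -/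
noncomputable def QQ : QuadraticForm (MvPolynomial (Fin 4) k) (Fin 4 → MvPolynomial (Fin 4) k) :=
  LinearMap.BilinMap.toQuadraticMap (Matrix.toBilin' (Bm M))

/-- the standard monomials -/
noncomputable def BB (i : Fin 4 → ℕ) : GAlg k (mu1 k) M :=
  (gy k (mu1 k) M 0 ^ (i 0 / 2) * gy k (mu1 k) M 1 ^ (i 1 / 2) * gy k (mu1 k) M 2 ^ (i 2 / 2)
    * gy k (mu1 k) M 3 ^ (i 3 / 2)) * ex (gx k (mu1 k) M) (fun l => ⟨i l % 2, Nat.mod_lt _ two_pos⟩)

/-- Halves and parities. -/
noncomputable def parEquiv : (Fin 4 → ℕ) ≃ (Fin 4 →₀ ℕ) × (Fin 4 → Fin 2) where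
  toFun i := (Finsupp.equivFunOnFinite.symm fun l => i l / 2,
    fun l => ⟨i l % 2, Nat.mod_lt _ two_pos⟩)
  invFun p := fun l => 2 * p.1 l + p.2 l
  left_inv i := by
    funext l
    simp only [Finsupp.equivFunOnFinite_symm_apply_apply]
    omega
  right_inv p := by
    obtain ⟨a, e⟩ := p
    ext l
    · simp only [Finsupp.equivFunOnFinite_symm_apply_apply]
      have := (e l).2
      omega
    · simp only
      have := (e l).2
      omega

variable {M}

theorem exists_phi (h2 : (2 : k) ≠ 0) (hM : ∀ l i j, M l i j = M l j i) :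
    ∃ f : GAlg k (mu1 k) M →ₐ[k] CliffordAlgebra (QQ M),
      (∀ i, f (gx k (mu1 k) M i) = CliffordAlgebra.ι (QQ M) (Pi.single i 1)) ∧
      ∀ l, f (gy k (mu1 k) M l) = algebraMap _ _ (MvPolynomial.X l : MvPolynomial (Fin 4) k) := by
  apply hom_aux
  intro i j
  rw [mu1, one_smul, CliffordAlgebra.ι_mul_ι_add_swap, QQ,
    LinearMap.BilinMap.polar_toQuadraticMap, Matrix.toBilin'_single, Matrix.toBilin'_single]
  have e : Bm M i j + Bm M j i = ∑ l, M l i j • (MvPolynomial.X l : MvPolynomial (Fin 4) k) := by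
    simp only [Bm]
    rw [← Finset.sum_add_distrib]
    apply Finset.sum_congr rfl
    intro l _
    rw [hM l j i, ← add_smul]
    congr 1
    field_simp
    norm_num
  rw [e, ← IsScalarTower.coe_toAlgHom' k (MvPolynomial (Fin 4) k), map_sum]
  simp only [map_smul]

theorem exists_basis (h2 : (2 : k) ≠ 0) (hM : ∀ l i j, M l i j = M l j i)
    (hc : ∀ l (u : GAlg k (mu1 k) M), Commute u (gy k (mu1 k) M l))
    (hgen : Algebra.adjoin k (Set.range (gx k (mu1 k) M)) = ⊤) :
    ∃ B : Module.Basis (Fin 4 → ℕ) k (GAlg k (mu1 k) M), ∀ i, B i = BB M i := by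
  obtain ⟨f, hfx, hfy⟩ := exists_phi h2 hM
  -- the structure of an algebra over the polynomial ring
  let a0 : MvPolynomial (Fin 4) k →ₐ[k] Subalgebra.center k (GAlg k (mu1 k) M) :=
    MvPolynomial.aeval fun l => ⟨gy k (mu1 k) M l, Subalgebra.mem_center_iff.2 fun u => hc l u⟩
  let aS : MvPolynomial (Fin 4) k →ₐ[k] GAlg k (mu1 k) M :=
    (Subalgebra.center k (GAlg k (mu1 k) M)).val.comp a0
  have haX : ∀ l, aS (MvPolynomial.X l) = gy k (mu1 k) M l := by
    intro l
    simp [aS, a0]
  let _ : Algebra (MvPolynomial (Fin 4) k) (GAlg k (mu1 k) M) :=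
    aS.toRingHom.toAlgebra' (fun s u => (Subalgebra.mem_center_iff.1 (a0 s).2 u).symm)
  have halg : ∀ s, algebraMap (MvPolynomial (Fin 4) k) (GAlg k (mu1 k) M) s = aS s := fun _ => rfl
  have : IsScalarTower k (MvPolynomial (Fin 4) k) (GAlg k (mu1 k) M) :=
    IsScalarTower.of_algebraMap_eq fun c => by
      rw [halg, ← AlgHom.commutes aS c]
  let _ : Invertible (2 : MvPolynomial (Fin 4) k) :=
    { invOf := MvPolynomial.C (2⁻¹ : k)
      invOf_mul_self := by
        rw [show (2 : MvPolynomial (Fin 4) k) = MvPolynomial.C 2 from rfl, ← map_mul,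
          inv_mul_cancel₀ h2, map_one]
      mul_invOf_self := by
        rw [show (2 : MvPolynomial (Fin 4) k) = MvPolynomial.C 2 from rfl, ← map_mul,
          mul_inv_cancel₀ h2, map_one] }
  have hfS : ∀ s, f (aS s) = algebraMap _ _ s := by
    intro s
    have : f.comp aS = IsScalarTower.toAlgHom k (MvPolynomial (Fin 4) k) (CliffordAlgebra (QQ M)) :=
      MvPolynomial.algHom_ext fun l => by
        rw [AlgHom.comp_apply, haX, hfy]; rfl
    exact DFunLike.congr_fun this s
  -- span over the polynomial ring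
  have hgenS : Algebra.adjoin (MvPolynomial (Fin 4) k) (Set.range (gx k (mu1 k) M)) = ⊤ := by
    rw [eq_top_iff]
    intro u _
    have hu : u ∈ Algebra.adjoin k (Set.range (gx k (mu1 k) M)) := by rw [hgen]; trivial
    induction hu using Algebra.adjoin_induction with
    | mem y hy => exact Algebra.subset_adjoin hy
    | algebraMap c =>
      rw [IsScalarTower.algebraMap_apply k (MvPolynomial (Fin 4) k) (GAlg k (mu1 k) M)]
      exact Subalgebra.algebraMap_mem _ _
    | add y z _ _ hy hz => exact Subalgebra.add_mem _ (hy trivial) (hz trivial)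
    | mul y z _ _ hy hz => exact Subalgebra.mul_mem _ (hy trivial) (hz trivial)
  have hrel : ∀ i j, gx k (mu1 k) M i * gx k (mu1 k) M j + gx k (mu1 k) M j * gx k (mu1 k) M i
      = algebraMap (MvPolynomial (Fin 4) k) _ (∑ l, M l i j • MvPolynomial.X l) := by
    intro i j
    have := g_rel (mu1 k) M i j
    rw [mu1, one_smul] at this
    rw [this, halg, map_sum]
    simp only [map_smul, haX]
  have hsq : ∀ i, gx k (mu1 k) M i * gx k (mu1 k) M i
      = algebraMap (MvPolynomial (Fin 4) k) _ (∑ l, (M l i i / 2) • MvPolynomial.X l) := by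
    intro i
    apply two_inj h2
    rw [hrel, halg, halg, map_sum, map_sum, Finset.smul_sum]
    apply Finset.sum_congr rfl
    intro l _
    rw [map_smul, map_smul, smul_smul, mul_div_cancel₀ _ h2]
  have hspan := span_ex (gx k (mu1 k) M) _ _ hrel hsq hgenS
  -- independence over the polynomial ring
  have hind : LinearIndependent (MvPolynomial (Fin 4) k) (ex (gx k (mu1 k) M)) := by
    let fS : GAlg k (mu1 k) M →ₗ[MvPolynomial (Fin 4) k] CliffordAlgebra (QQ M) :=
      { toFun := f
        map_add' := map_add f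
        map_smul' := fun s u => by
          rw [RingHom.id_apply, Algebra.smul_def, Algebra.smul_def, map_mul, halg, hfS] }
    apply LinearIndependent.of_comp fS
    have : (fS ∘ ex (gx k (mu1 k) M))
        = ex fun i : Fin 4 => CliffordAlgebra.ι (QQ M) (Pi.single i 1) := by
      funext e
      show f (ex (gx k (mu1 k) M) e) = _
      simp only [ex, map_mul, map_pow, hfx]
    rw [this]
    exact cl_indep (QQ M)
  let b1 : Module.Basis (Fin 4 → Fin 2) (MvPolynomial (Fin 4) k) (GAlg k (mu1 k) M) :=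
    Module.Basis.mk hind hspan.ge
  let b2 : Module.Basis ((Fin 4 →₀ ℕ) × (Fin 4 → Fin 2)) k (GAlg k (mu1 k) M) :=
    (MvPolynomial.basisMonomials (Fin 4) k).smulTower b1
  refine ⟨b2.reindex parEquiv.symm, fun i => ?_⟩
  rw [Module.Basis.reindex_apply, Equiv.symm_symm]
  show b2 (parEquiv i) = _
  rw [Module.Basis.smulTower_apply, MvPolynomial.coe_basisMonomials, Module.Basis.mk_apply,
    Algebra.smul_def, halg]
  show aS (MvPolynomial.monomial (parEquiv i).1 1) * _ = _
  rw [MvPolynomial.monomial_eq, map_one, one_mul,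
    Finsupp.prod_fintype _ _ (fun _ => pow_zero _), Fin.prod_univ_four]
  simp only [map_mul, map_pow, haX]
  rfl

end

end Pool.Agent.V5helper30.PM
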