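import Pool.Agent.V5helper30.PM.Alg

/-!
# The elements `y_l` are central
-/

universe u

namespace Pool.Agent.V5helper30.PM

open Pool.Agent.W506.PM

section Jac

variable {E : Type u} [Ring E]

/-- commutator -/
def cm (u v : E) : E := u * v - v * u

theorem cm_self (u : E) : cm u u = 0 := sub_self _
theorem cm_sq (u : E) : cm u (u * u) = 0 := by unfold cm; noncomm_ring
theorem cm_add (u v w : E) : cm u (v + w) = cm u v + cm u w := by unfold cm; noncomm_ring
theorem cm_sub (u v w : E) : cm u (v - w) = cm u v - cm u w := by unfold cm; noncomm_ring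
theorem cm_neg (u v : E) : cm u (-v) = -cm u v := by unfold cm; noncomm_ring
theorem cm_zero (u : E) : cm u 0 = 0 := by unfold cm; noncomm_ring
theorem cm_smul {k : Type u} [Field k] [Algebra k E] (s : k) (u v : E) :
    cm u (s • v) = s • cm u v := by
  unfold cm; rw [mul_smul_comm, smul_mul_assoc, smul_sub]

theorem jac2 (u v : E) : cm u (v * v) + cm v (u * v + v * u) = 0 := by
  unfold cm; noncomm_ring

theorem jac2' (u v : E) : cm u (v * v) + cm v (v * u + u * v) = 0 := by
  unfold cm; noncomm_ring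

theorem jac3 (u v w : E) : cm u (v * w + w * v) + cm v (w * u + u * w) + cm w (u * v + v * u)
    = 0 := by
  unfold cm; noncomm_ring

theorem comm_of_cm {u v : E} (h : cm u v = 0) : Commute u v := sub_eq_zero.1 h

end Jac

variable {k : Type u} [Field k]

section

variable {i0 : k} {E : Type u} [Ring E] [Algebra k E] {c a d b : E} (h2 : (2 : k) ≠ 0)
  (h : Rels i0 c a d b)

include h2 h

theorem central_aux :
    (cm c (c * c) = 0 ∧ cm c (d * d) = 0 ∧ cm c (a * c + c * a) = 0 ∧ cm c (a * b + b * a) = 0) ∧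
    (cm a (c * c) = 0 ∧ cm a (d * d) = 0 ∧ cm a (a * c + c * a) = 0 ∧ cm a (a * b + b * a) = 0) ∧
    (cm d (c * c) = 0 ∧ cm d (d * d) = 0 ∧ cm d (a * c + c * a) = 0 ∧ cm d (a * b + b * a) = 0) ∧
    (cm b (c * c) = 0 ∧ cm b (d * d) = 0 ∧ cm b (a * c + c * a) = 0 ∧
      cm b (a * b + b * a) = 0) := by
  set y2 := a * c + c * a with hy2
  set y3 := a * b + b * a with hy3
  have hcc : cm c (c * c) = 0 := cm_sq c
  have hdd : cm d (d * d) = 0 := cm_sq d
  have hdc : cm d (c * c) = 0 := by
    have := jac2 d c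
    rw [show d * c + c * d = 0 by rw [add_comm]; exact h.cd, cm_zero, add_zero] at this
    exact this
  have hcd : cm c (d * d) = 0 := by
    have := jac2 c d
    rw [h.cd, cm_zero, add_zero] at this
    exact this
  have hac : cm a (c * c) = -cm c y2 := by
    have := jac2 a c
    rw [← hy2] at this
    exact eq_neg_of_add_eq_zero_left this
  have had : cm a (d * d) = cm d y2 := by
    have := jac2 a d
    rw [h.ad, cm_neg, ← hy2] at this
    exact sub_eq_zero.1 (by rw [sub_eq_add_neg]; exact this)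
  have e1 : cm d y2 = cm c y2 := by
    have := jac3 a c d
    rw [h.cd, cm_zero, zero_add, show d * a + a * d = -y2 by rw [add_comm]; exact h.ad,
      cm_neg, ← hy2] at this
    exact (eq_neg_of_add_eq_zero_right this).trans (neg_neg _)
  have e2 : cm c y2 + cm d y2 = 0 := by
    have := jac3 b c d
    rw [h.cd, cm_zero, zero_add, show d * b + b * d = (2 : k) • (c * c) + y2 by
      rw [add_comm]; exact h.bd, h.bc, ← hy2, cm_add c _ y2, cm_add d _ y2, cm_smul, cm_smul,
      hcc, hdd, smul_zero, zero_add, smul_zero, zero_add] at this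
    exact this
  have hc2 : cm c y2 = 0 := by
    rw [e1, ← two_smul k] at e2
    exact (smul_eq_zero.1 e2).resolve_left h2
  have hd2 : cm d y2 = 0 := e1.trans hc2
  rw [hc2, neg_zero] at hac
  rw [hd2] at had
  have hbc : cm b (c * c) = 0 := by
    have := jac2 b c
    rw [h.bc, ← hy2, cm_add, cm_smul, hcd, hc2, smul_zero, zero_add, add_zero] at this
    exact this
  have hbd : cm b (d * d) = 0 := by
    have := jac2 b d
    rw [h.bd, ← hy2, cm_add, cm_smul, hdc, hd2, smul_zero, zero_add, add_zero] at this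
    exact this
  have ha2 : cm a y2 = 0 := by
    have := jac2' c a
    rw [h.aa, ← hy2, cm_add, cm_add, cm_smul, cm_smul, hcc, hcd, hc2, smul_zero, smul_zero,
      zero_add, zero_add, zero_add] at this
    exact this
  have hb2 : cm b y2 = 0 := by
    have := jac2' c b
    rw [h.bb, h.bc, ← hy2, cm_sub, cm_sub, cm_smul, cm_smul, cm_smul, hcc, hcd, hc2,
      cm_add, cm_smul, hbd, smul_zero, smul_zero, smul_zero, sub_zero, sub_zero,
      zero_add, smul_zero, zero_add] at this
    exact this
  have hc3 : cm c y3 = 0 := by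
    have := jac3 a b c
    rw [h.bc, ← hy3, show c * a + a * c = y2 by rw [add_comm], hb2, ← hy2, cm_add, cm_smul,
      had, ha2, smul_zero, zero_add, zero_add, zero_add] at this
    exact this
  have hd3 : cm d y3 = 0 := by
    have := jac3 a b d
    rw [h.bd, ← hy3, show d * a + a * d = -y2 by rw [add_comm]; exact h.ad, ← hy2, cm_neg, hb2,
      cm_add, cm_smul, hac, ha2, smul_zero, neg_zero, add_zero, zero_add, zero_add] at this
    exact this
  have ha3 : cm a y3 = 0 := by
    have := jac2' b a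
    rw [h.aa, ← hy3, ← hy2, cm_add, cm_add, cm_smul, cm_smul, hbc, hbd, hb2, smul_zero,
      smul_zero, zero_add, zero_add, zero_add] at this
    exact this
  have hb3 : cm b y3 = 0 := by
    have := jac2 a b
    rw [h.bb, ← hy3, ← hy2, cm_sub, cm_sub, cm_smul, cm_smul, cm_smul, hac, had, ha2, smul_zero,
      smul_zero, smul_zero, sub_zero, sub_zero, zero_add] at this
    exact this
  exact ⟨⟨hcc, hcd, hc2, hc3⟩, ⟨hac, had, ha2, ha3⟩, ⟨hdc, hdd, hd2, hd3⟩, ⟨hbc, hbd, hb2, hb3⟩⟩

end

section

variable (i0 : k) (h2 : (2 : k) ≠ 0)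

/-- the central elements -/
noncomputable abbrev ey : Fin 4 → AA i0 := gy k (mu1 k) (MM i0)

include h2 in
theorem ey_comm (l j : Fin 4) : Commute (gg i0 j) (ey i0 l) := by
  have e0 := gy0_eq i0 h2
  have e1 := gy1_eq i0 h2
  have e2 := gy2_eq i0
  have e3 := gy3_eq i0
  obtain ⟨⟨a0, a1, a2, a3⟩, ⟨b0, b1, b2, b3⟩, ⟨c0, c1, c2, c3⟩, ⟨d0, d1, d2, d3⟩⟩ :=
    central_aux h2 (rels_AA i0 h2)
  rw [← e0] at a0 b0 c0 d0
  rw [← e1] at a1 b1 c1 d1
  rw [← e2] at a2 b2 c2 d2
  rw [← e3] at a3 b3 c3 d3
  apply comm_of_cm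
  fin_cases l <;> fin_cases j <;> assumption

include h2 in
theorem ey_central (l : Fin 4) (u : AA i0) : Commute u (ey i0 l) := by
  have hu : u ∈ Algebra.adjoin k (Set.range (gx k (mu1 k) (MM i0))) := by
    rw [adjoin_AA i0 h2]; trivial
  induction hu using Algebra.adjoin_induction with
  | mem y hy => obtain ⟨j, rfl⟩ := hy; exact ey_comm i0 h2 l j
  | algebraMap s => exact Algebra.commutes s _
  | add y w _ _ hy hw => exact hy.add_left hw
  | mul y w _ _ hy hw => exact hy.mul_left hw

end

end Pool.Agent.V5helper30.PM
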