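import Pool.Agent.V5helper30.PM.Alg

/-!
# Scalar certificates over the Gaussian integers
-/

universe u

namespace Pool.Agent.V5helper30.PM

/-- shorthand -/
abbrev ZI : Type := GaussianInt

/-- the relations -/
def Rz : Fin 6 → Fin 4 → Fin 4 → ZI :=
  ![![![⟨0, 0⟩, ⟨0, 0⟩, ⟨1, 0⟩, ⟨0, 0⟩],
      ![⟨0, 0⟩, ⟨0, 0⟩, ⟨0, 0⟩, ⟨0, 0⟩],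
      ![⟨1, 0⟩, ⟨0, 0⟩, ⟨0, 0⟩, ⟨0, 0⟩],
      ![⟨0, 0⟩, ⟨0, 0⟩, ⟨0, 0⟩, ⟨0, 0⟩]],
    ![![⟨0, 0⟩, ⟨1, 0⟩, ⟨0, 0⟩, ⟨0, 0⟩],
      ![⟨1, 0⟩, ⟨0, 0⟩, ⟨1, 0⟩, ⟨0, 0⟩],
      ![⟨0, 0⟩, ⟨1, 0⟩, ⟨0, 0⟩, ⟨0, 0⟩],
      ![⟨0, 0⟩, ⟨0, 0⟩, ⟨0, 0⟩, ⟨0, 0⟩]],
    ![![⟨0, 0⟩, ⟨-1, 0⟩, ⟨0, 0⟩, ⟨1, 0⟩],
      ![⟨-1, 0⟩, ⟨0, 0⟩, ⟨0, 0⟩, ⟨0, 0⟩],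
      ![⟨0, 0⟩, ⟨0, 0⟩, ⟨0, -2⟩, ⟨0, 0⟩],
      ![⟨1, 0⟩, ⟨0, 0⟩, ⟨0, 0⟩, ⟨0, 0⟩]],
    ![![⟨-2, 0⟩, ⟨-1, 0⟩, ⟨0, 0⟩, ⟨0, 0⟩],
      ![⟨-1, 0⟩, ⟨0, 0⟩, ⟨0, 0⟩, ⟨0, 0⟩],
      ![⟨0, 0⟩, ⟨0, 0⟩, ⟨0, 0⟩, ⟨1, 0⟩],
      ![⟨0, 0⟩, ⟨0, 0⟩, ⟨1, 0⟩, ⟨0, 0⟩]],
    ![![⟨-1, 0⟩, ⟨1, -1⟩, ⟨0, 0⟩, ⟨0, 0⟩],
      ![⟨1, -1⟩, ⟨1, 0⟩, ⟨0, 0⟩, ⟨0, 0⟩],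
      ![⟨0, 0⟩, ⟨0, 0⟩, ⟨-3, -2⟩, ⟨0, 0⟩],
      ![⟨0, 0⟩, ⟨0, 0⟩, ⟨0, 0⟩, ⟨0, 0⟩]],
    ![![⟨6, -2⟩, ⟨2, 0⟩, ⟨0, 0⟩, ⟨0, 0⟩],
      ![⟨2, 0⟩, ⟨0, 0⟩, ⟨0, 0⟩, ⟨0, 0⟩],
      ![⟨0, 0⟩, ⟨0, 0⟩, ⟨2, 4⟩, ⟨0, 0⟩],
      ![⟨0, 0⟩, ⟨0, 0⟩, ⟨0, 0⟩, ⟨1, 0⟩]]]

/-- the symmetric matrix `G` -/
def Gz : Fin 6 → Fin 6 → ZI :=
  ![![⟨-17, -37⟩, ⟨8, 1⟩, ⟨-6, 22⟩, ⟨-2, -16⟩, ⟨2, -6⟩, ⟨-4, 8⟩],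
    ![⟨8, 1⟩, ⟨9, -7⟩, ⟨0, 0⟩, ⟨0, 0⟩, ⟨-4, -3⟩, ⟨0, 0⟩],
    ![⟨-6, 22⟩, ⟨0, 0⟩, ⟨18, -16⟩, ⟨-4, 8⟩, ⟨0, 0⟩, ⟨7, -4⟩],
    ![⟨-2, -16⟩, ⟨0, 0⟩, ⟨-4, 8⟩, ⟨2, -4⟩, ⟨0, 0⟩, ⟨-1, 2⟩],
    ![⟨2, -6⟩, ⟨-4, -3⟩, ⟨0, 0⟩, ⟨0, 0⟩, ⟨-1, 3⟩, ⟨0, 0⟩],
    ![⟨-4, 8⟩, ⟨0, 0⟩, ⟨7, -4⟩, ⟨-1, 2⟩, ⟨0, 0⟩, ⟨3, -1⟩]]

/-- ten times the inverse of `G` -/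
def Hz : Fin 6 → Fin 6 → ZI :=
  ![![⟨0, 0⟩, ⟨0, 0⟩, ⟨0, 1⟩, ⟨0, 1⟩, ⟨0, 0⟩, ⟨0, -2⟩],
    ![⟨0, 0⟩, ⟨2, 2⟩, ⟨-1, -1⟩, ⟨-1, -1⟩, ⟨4, -2⟩, ⟨2, 2⟩],
    ![⟨0, 1⟩, ⟨-1, -1⟩, ⟨2, 0⟩, ⟨0, -2⟩, ⟨-2, 3⟩, ⟨-4, 2⟩],
    ![⟨0, 1⟩, ⟨-1, -1⟩, ⟨0, -2⟩, ⟨0, -2⟩, ⟨-2, 3⟩, ⟨2, 6⟩],
    ![⟨0, 0⟩, ⟨4, -2⟩, ⟨-2, 3⟩, ⟨-2, 3⟩, ⟨-2, -10⟩, ⟨4, -6⟩],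
    ![⟨0, -2⟩, ⟨2, 2⟩, ⟨-4, 2⟩, ⟨2, 6⟩, ⟨4, -6⟩, ⟨12, -8⟩]]

theorem Hz_Gz (i j : Fin 6) : ∑ l, Hz i l * Gz l j = if i = j then 10 else 0 := by
  revert i j
  decide +kernel

theorem sym_z (p j q l : Fin 4) :
    ∑ i, (∑ i', Gz i i' * Rz i' p j) * Rz i q l = ∑ i, (∑ i', Gz i i' * Rz i' j l) * Rz i p q := by
  revert p j q l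
  decide +kernel

variable {k : Type u} [Field k]

/-- the ring homomorphism sending `i` to `i0` -/
def phz (i0 : k) (hi : i0 ^ 2 = -1) : ZI →+* k :=
  Zsqrtd.lift ⟨i0, by rw [← sq, hi]; norm_num⟩

theorem phz_mk (i0 : k) (hi : i0 ^ 2 = -1) (a b : ℤ) : phz i0 hi ⟨a, b⟩ = a + b * i0 :=
  Zsqrtd.lift_apply_apply _ _

theorem rr_eq (i0 : k) (hi : i0 ^ 2 = -1) (i : Fin 6) (j l : Fin 4) :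
    rr i0 i j l = phz i0 hi (Rz i j l) := by
  fin_cases i <;> fin_cases j <;> fin_cases l <;> simp [rr, Rz, phz_mk] <;> ring

/-- the matrix `G` over `k` -/
def GG (i0 : k) (hi : i0 ^ 2 = -1) (i j : Fin 6) : k := phz i0 hi (Gz i j)
/-- the matrix `H` over `k` -/
def HH (i0 : k) (hi : i0 ^ 2 = -1) (i j : Fin 6) : k := phz i0 hi (Hz i j)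

theorem HH_GG (i0 : k) (hi : i0 ^ 2 = -1) (i j : Fin 6) :
    ∑ l, HH i0 hi i l * GG i0 hi l j = if i = j then 10 else 0 := by
  have := congrArg (phz i0 hi) (Hz_Gz i j)
  simp only [map_sum, map_mul] at this
  simp only [HH, GG]
  rw [this]
  split_ifs
  · exact map_ofNat _ 10
  · exact map_zero _

theorem sym_k (i0 : k) (hi : i0 ^ 2 = -1) (p j q l : Fin 4) :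
    ∑ i, (∑ i', GG i0 hi i i' * rr i0 i' p j) * rr i0 i q l
      = ∑ i, (∑ i', GG i0 hi i i' * rr i0 i' j l) * rr i0 i p q := by
  have := congrArg (phz i0 hi) (sym_z p j q l)
  simp only [map_sum, map_mul] at this
  simp only [GG, rr_eq i0 hi]
  exact this

end Pool.Agent.V5helper30.PM
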