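import Pool.Agent.V5helper30.PM.Bas

/-!
# The graded pieces, and the regular sequence `y_0, y_1`
-/

universe u

namespace Pool.Agent.V5helper30.PM

open Pool.Agent.W506.PM

section

variable {k : Type u} [Field k] {M : Fin 4 → Matrix (Fin 4) (Fin 4) k}

theorem BB_mem (i : Fin 4 → ℕ) : BB M i ∈ ggr k (mu1 k) M (deg4 i) := by
  have hx : ∀ (j : Fin 4) (n : ℕ), gx k (mu1 k) M j ^ n ∈ ggr k (mu1 k) M n := fun j n => by
    simpa using SetLike.pow_mem_graded (A := ggr k (mu1 k) M) n (gx_mem (mu1 k) M j)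
  have hy : ∀ (j : Fin 4) (n : ℕ), gy k (mu1 k) M j ^ n ∈ ggr k (mu1 k) M (n * 2) := fun j n => by
    simpa using SetLike.pow_mem_graded (A := ggr k (mu1 k) M) n (gy_mem (mu1 k) M j)
  have hm : ∀ {d e : ℕ} {x y : GAlg k (mu1 k) M}, x ∈ ggr k (mu1 k) M d →
      y ∈ ggr k (mu1 k) M e → x * y ∈ ggr k (mu1 k) M (d + e) := fun hx hy =>
    SetLike.mul_mem_graded hx hy
  have h := hm (hm (hm (hm (hy 0 (i 0 / 2)) (hy 1 (i 1 / 2))) (hy 2 (i 2 / 2)))
      (hy 3 (i 3 / 2)))
    (hm (hm (hm (hx 0 (i 0 % 2)) (hx 1 (i 1 % 2))) (hx 2 (i 2 % 2))) (hx 3 (i 3 % 2)))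
  have e : i 0 / 2 * 2 + i 1 / 2 * 2 + i 2 / 2 * 2 + i 3 / 2 * 2
      + (i 0 % 2 + i 1 % 2 + i 2 % 2 + i 3 % 2) = deg4 i := by
    unfold deg4; omega
  rw [e] at h
  exact h

variable (B : Module.Basis (Fin 4 → ℕ) k (GAlg k (mu1 k) M)) (hB : ∀ i, B i = BB M i)

include hB

theorem repr_eq_zero {d : ℕ} {x : GAlg k (mu1 k) M} (hx : x ∈ ggr k (mu1 k) M d)
    (i : Fin 4 → ℕ) (hid : deg4 i ≠ d) : B.repr x i = 0 := by
  have key : (B.coord i).comp (GradedAlgebra.proj (ggr k (mu1 k) M) d) = 0 := by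
    apply B.ext
    intro j
    rw [LinearMap.comp_apply, hB, GradedAlgebra.proj_apply]
    by_cases h : deg4 j = d
    · subst h
      rw [DirectSum.decompose_of_mem_same _ (BB_mem j), ← hB, Module.Basis.coord_apply,
        Module.Basis.repr_self, Finsupp.single_eq_of_ne]
      · rfl
      · rintro rfl; exact hid rfl
    · rw [DirectSum.decompose_of_mem_ne _ (BB_mem j) h, map_zero]; rfl
  have h1 := LinearMap.congr_fun key x
  rw [LinearMap.comp_apply, GradedAlgebra.proj_apply, DirectSum.decompose_of_mem_same _ hx] at h1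
  exact h1

theorem ggr_eq_span (d : ℕ) :
    ggr k (mu1 k) M d = Submodule.span k (Set.range fun i : mon d => BB M i) := by
  apply le_antisymm
  · intro x hx
    rw [← B.linearCombination_repr x, Finsupp.linearCombination_apply, Finsupp.sum]
    apply Submodule.sum_mem
    intro i hi'
    apply Submodule.smul_mem
    rw [hB]
    have hid : deg4 i = d := by
      by_contra h
      exact (Finsupp.mem_support_iff.1 hi') (repr_eq_zero B hB hx i h)
    exact Submodule.subset_span ⟨⟨i, (mem_mon d i).2 hid⟩, rfl⟩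
  · rw [Submodule.span_le]
    rintro _ ⟨⟨i, hi'⟩, rfl⟩
    have := BB_mem (M := M) i
    rw [(mem_mon d i).1 hi'] at this
    exact this

theorem finrank_ggr (d : ℕ) : Module.finrank k (ggr k (mu1 k) M d) = (d + 3).choose 3 := by
  have hli : LinearIndependent k (BB M) := by
    have := B.linearIndependent
    rwa [show (B : (Fin 4 → ℕ) → GAlg k (mu1 k) M) = BB M from funext hB] at this
  rw [ggr_eq_span B hB, finrank_span_eq_card]
  · rw [Fintype.card_coe, card_mon]
  · exact hli.comp _ Subtype.val_injective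

theorem conn_ggr : IsConnectedGraded (ggr k (mu1 k) M) where
  graded := inferInstance
  internal := DirectSum.Decomposition.isInternal _
  connected := by rw [finrank_ggr B hB]; rfl
  finite d := by
    rw [ggr_eq_span B hB]
    exact Module.Finite.span_of_finite k (Set.finite_range _)

variable (hc : ∀ l (u : GAlg k (mu1 k) M), Commute u (gy k (mu1 k) M l))
include hc

theorem y0_mul (i : Fin 4 → ℕ) : gy k (mu1 k) M 0 * B i = B (sh0 i) := by
  rw [hB, hB]
  have e0 : (i 0 + 2) / 2 = i 0 / 2 + 1 := by omega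
  have e1 : (i 0 + 2) % 2 = i 0 % 2 := by omega
  simp only [BB, ex, sh0, Matrix.cons_val_zero, Matrix.cons_val_one, Matrix.cons_val, e0, e1,
    pow_succ', mul_assoc]

theorem y1_mul (i : Fin 4 → ℕ) : gy k (mu1 k) M 1 * B i = B (sh1 i) := by
  rw [hB, hB]
  have e0 : (i 1 + 2) / 2 = i 1 / 2 + 1 := by omega
  have e1 : (i 1 + 2) % 2 = i 1 % 2 := by omega
  have h : gy k (mu1 k) M 1 * gy k (mu1 k) M 0 ^ (i 0 / 2)
      = gy k (mu1 k) M 0 ^ (i 0 / 2) * gy k (mu1 k) M 1 := (hc 1 _).symm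
  simp only [BB, ex, sh1, Matrix.cons_val_zero, Matrix.cons_val_one, Matrix.cons_val, e0, e1,
    pow_succ', mul_assoc]
  rw [← mul_assoc (gy k (mu1 k) M 1), h, mul_assoc]

theorem reg_y : (∀ h : GAlg k (mu1 k) M, gy k (mu1 k) M 0 * h = 0 → h = 0) ∧
    (∀ h h' : GAlg k (mu1 k) M, gy k (mu1 k) M 1 * h = gy k (mu1 k) M 0 * h' →
      ∃ h'', h = gy k (mu1 k) M 0 * h'') := by
  have hT1 : ∀ i, (LinearMap.mulLeft k (gy k (mu1 k) M 0)) (B i) = (1 : k) • B (sh0 i) := by
    intro i; rw [one_smul]; exact y0_mul B hB hc i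
  have hT2 : ∀ i, (LinearMap.mulLeft k (gy k (mu1 k) M 1)) (B i) = (1 : k) • B (sh1 i) := by
    intro i; rw [one_smul]; exact y1_mul B hB hc i
  constructor
  · intro h h0
    exact shift_inj B _ sh0 sh0_inj (fun _ => 1) (fun _ => one_ne_zero) hT1 h h0
  · intro h h' h0
    exact shift_reg B _ _ sh0 sh1 sh1_inj (fun _ => 1) (fun _ => 1)
      (fun _ => one_ne_zero) (fun _ => one_ne_zero) hT1 hT2 sh_sh h h' h0

end

end Pool.Agent.V5helper30.PM
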