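import Pool.Agent.V5helper30.PM.Dat
import Pool.Agent.V5helper30.PM.Gr
import Pool.Agent.W506.PM.K3

/-!
# The Koszul complexes of the algebra are exact on both sides
-/

universe u

namespace Pool.Agent.V5helper30.PM

open Pool.Agent.W506.PM

variable {k : Type u} [Field k]

section Abs

variable {A : Type u} [Ring A] [Algebra k A]

/-- the composite of the two middle maps vanishes -/
theorem comp_aux {n m : ℕ} (x : Fin n → A) (r : Fin m → Fin n → Fin n → k)
    (G : Fin m → Fin m → k)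
    (hs : ∀ p j q l, ∑ i, (∑ i', G i i' * r i' p j) * r i q l
      = ∑ i, (∑ i', G i i' * r i' j l) * r i p q)
    (hr : ∀ i, ∑ p, ∑ q, r i p q • (x p * x q) = 0) (j l : Fin n) :
    ∑ i, (∑ i', G i i' • rowL x r i' j) * rowL x r i l = 0 := by
  have e1 : ∀ i, (∑ i', G i i' • rowL x r i' j) * rowL x r i l
      = ∑ p, ∑ q, ((∑ i', G i i' * r i' p j) * r i q l) • (x p * x q) := by
    intro i
    have e2 : ∑ i', G i i' • rowL x r i' j = ∑ p, (∑ i', G i i' * r i' p j) • x p := by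
      simp only [rowL, Finset.smul_sum, smul_smul, Finset.sum_smul]
      rw [Finset.sum_comm]
    rw [e2, rowL, Finset.sum_mul_sum]
    simp only [smul_mul_smul_comm]
  simp only [e1]
  rw [Finset.sum_comm]
  have e3 : ∀ p, ∑ i, ∑ q, ((∑ i', G i i' * r i' p j) * r i q l) • (x p * x q)
      = ∑ q, ∑ i, ((∑ i', G i i' * r i' j l) * r i p q) • (x p * x q) := by
    intro p
    rw [Finset.sum_comm]
    apply Finset.sum_congr rfl
    intro q _
    rw [← Finset.sum_smul, ← Finset.sum_smul, hs]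
  simp only [e3]
  have e4 : ∑ p, ∑ q, ∑ i, ((∑ i', G i i' * r i' j l) * r i p q) • (x p * x q)
      = ∑ i, (∑ i', G i i' * r i' j l) • ∑ p, ∑ q, r i p q • (x p * x q) := by
    simp only [Finset.smul_sum, smul_smul]
    have : ∀ p, ∑ q, ∑ i, ((∑ i', G i i' * r i' j l) * r i p q) • (x p * x q)
        = ∑ i, ∑ q, ((∑ i', G i i' * r i' j l) * r i p q) • (x p * x q) :=
      fun p => Finset.sum_comm
    simp only [this]
    rw [Finset.sum_comm]
  rw [e4]
  simp only [hr, smul_zero, Finset.sum_const_zero]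

end Abs

section

variable (i0 : k) (h2 : (2 : k) ≠ 0) (h5 : (5 : k) ≠ 0) (hi : i0 ^ 2 = -1)

/-- the matrix `m` -/
noncomputable def mm (i : Fin 6) (l : Fin 4) : AA i0 := rowL (gg i0) (rr i0) i l

/-- the matrix `m'` -/
noncomputable def mm' (i : Fin 6) (l : Fin 4) : AA i0 :=
  ∑ i', GG i0 hi i i' • mm i0 i' l

theorem rowR_eq (i : Fin 6) (l : Fin 4) :
    rowL (fun j => MulOpposite.op (gg i0 j)) (fun i j l => rr i0 i l j) i l
      = MulOpposite.op (mm i0 i l) := by
  simp only [rowL, mm, Finset.op_sum, MulOpposite.op_smul]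
  apply Finset.sum_congr rfl
  intro j _
  rw [rr_symm]

include h2 in
theorem mm_x (i : Fin 6) : ∑ j, mm i0 i j * gg i0 j = 0 := rowL_mul (isPres_AA i0 h2) i

include h2 in
theorem x_mm (i : Fin 6) : ∑ j, gg i0 j * mm i0 i j = 0 := by
  have := rowL_mul (isPres_AA i0 h2).op i
  simp only [rowR_eq, ← MulOpposite.op_mul, ← Finset.op_sum] at this
  exact MulOpposite.op_injective this

include h2 in
theorem x_mm' (i : Fin 6) : ∑ j, gg i0 j * mm' i0 hi i j = 0 := by
  simp only [mm', Finset.mul_sum, mul_smul_comm]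
  rw [Finset.sum_comm]
  apply Finset.sum_eq_zero
  intro i' _
  rw [← Finset.smul_sum, x_mm i0 h2, smul_zero]

include h2 in
theorem mm'_mm (j l : Fin 4) : ∑ i, mm' i0 hi i j * mm i0 i l = 0 :=
  comp_aux (gg i0) (rr i0) (GG i0 hi) (sym_k i0 hi) (isPres_AA i0 h2).rel j l

include h2 in
theorem exL1 (f : Fin 4 → AA i0) (hf : ∑ j, f j * gg i0 j = 0) :
    ∃ g : Fin 6 → AA i0, ∀ j, f j = ∑ i, g i * mm i0 i j :=
  ex1_of_pres (isPres_AA i0 h2) f hf

include h2 h5 in
theorem exR1 (b : Fin 4 → AA i0) (hb : ∑ j, gg i0 j * b j = 0) :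
    ∃ c : Fin 6 → AA i0, ∀ j, b j = ∑ i, mm' i0 hi i j * c i := by
  have h10 : (10 : k) ≠ 0 := by
    have : (10 : k) = 2 * 5 := by norm_num
    rw [this]; exact mul_ne_zero h2 h5
  obtain ⟨g, hg⟩ := ex1_of_pres (isPres_AA i0 h2).op (fun j => MulOpposite.op (b j)) (by
    simp only [← MulOpposite.op_mul, ← Finset.op_sum]
    rw [show (∑ i, gx k (mu1 k) (MM i0) i * b i) = 0 from hb, MulOpposite.op_zero])
  have hn : ∀ j, b j = ∑ i, mm i0 i j * (g i).unop := by
    intro j
    have := congrArg MulOpposite.unop (hg j)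
    simpa only [rowR_eq, MulOpposite.unop_op, Finset.unop_sum, MulOpposite.unop_mul] using this
  have hH : ∀ i j, mm i0 i j = ∑ l, ((10 : k)⁻¹ * HH i0 hi i l) • mm' i0 hi l j := by
    intro i j
    simp only [mm', Finset.smul_sum, smul_smul]
    rw [Finset.sum_comm]
    simp only [← Finset.sum_smul, mul_assoc, ← Finset.mul_sum]
    simp only [HH_GG i0 hi]
    rw [Finset.sum_eq_single i]
    · rw [if_pos rfl, inv_mul_cancel₀ h10, one_smul]
    · intro l _ hl
      rw [if_neg (Ne.symm hl), mul_zero, zero_smul]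
    · simp
  refine ⟨fun l => ∑ i, ((10 : k)⁻¹ * HH i0 hi i l) • (g i).unop, fun j => ?_⟩
  rw [hn j]
  simp only [hH, Finset.sum_mul, Finset.mul_sum, smul_mul_assoc, mul_smul_comm]
  rw [Finset.sum_comm]

include h2 in
theorem exists_bas : ∃ B : Module.Basis (Fin 4 → ℕ) k (AA i0), ∀ i, B i = BB (MM i0) i := by
  apply exists_basis h2
  · intro l i j
    fin_cases l <;> fin_cases i <;> fin_cases j <;> rfl
  · exact fun l u => ey_central i0 h2 l u
  · exact adjoin_AA i0 h2

/-- the basis -/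
noncomputable def bas : Module.Basis (Fin 4 → ℕ) k (AA i0) := (exists_bas i0 h2).choose

theorem bas_spec (i : Fin 4 → ℕ) : bas i0 h2 i = BB (MM i0) i := (exists_bas i0 h2).choose_spec i

include h2 in
theorem conn_AA : IsConnectedGraded (ggr k (mu1 k) (MM i0)) :=
  conn_ggr (bas i0 h2) (bas_spec i0 h2)

include h2 in
theorem finrank_AA (d : ℕ) :
    Module.finrank k (ggr k (mu1 k) (MM i0) d) = (d + 3).choose 3 :=
  finrank_ggr (bas i0 h2) (bas_spec i0 h2) d

include h2 in
theorem x_X (j l : Fin 4) : gg i0 j * ey i0 l = ey i0 l * gg i0 j :=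
  (ey_central i0 h2 l (gg i0 j)).eq

include h2 in
theorem regs : (∀ h : AA i0, ey i0 0 * h = 0 → h = 0) ∧
    (∀ h h' : AA i0, ey i0 1 * h = ey i0 0 * h' → ∃ h'', h = ey i0 0 * h'') :=
  reg_y (bas i0 h2) (bas_spec i0 h2) (ey_central i0 h2)

include h2 h5 in
theorem exL34 :
    (∀ f : Fin 4 → AA i0, (∀ i, ∑ j, f j * mm' i0 hi i j = 0) →
      ∃ h : AA i0, ∀ j, f j = h * gg i0 j) ∧
    (∀ h : AA i0, (∀ j, h * gg i0 j = 0) → h = 0) := by
  have e0 : gg i0 0 * gg i0 0 = ey i0 0 := (gy0_eq i0 h2).symm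
  have e1 : gg i0 2 * gg i0 2 = ey i0 1 := (gy1_eq i0 h2).symm
  refine ex34 (gg i0) (mm' i0 hi) (exR1 i0 h2 h5 hi) (fun _ => (1 : k)) ?_ ?_ ?_ ?_
  · intro j
    rw [one_smul, e0]; exact x_X i0 h2 j 0
  · rw [e0, e1]; exact ey_central i0 h2 1 _
  · intro h hh
    rw [e0, ey_central i0 h2 0 h] at hh
    exact (regs i0 h2).1 h hh
  · intro h h' hh
    rw [e0, e1, ey_central i0 h2 0 h', ey_central i0 h2 1 h] at hh
    obtain ⟨z, hz⟩ := (regs i0 h2).2 h h' hh
    refine ⟨z, ?_⟩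
    rw [e0, hz]; exact (ey_central i0 h2 0 z).symm

include h2 in
theorem exR34 : (∀ f : Fin 4 → (AA i0)ᵐᵒᵖ,
      (∀ i, ∑ j, f j * MulOpposite.op (mm i0 i j) = 0) →
      ∃ h : (AA i0)ᵐᵒᵖ, ∀ j, f j = h * MulOpposite.op (gg i0 j)) ∧
    (∀ h : (AA i0)ᵐᵒᵖ, (∀ j, h * MulOpposite.op (gg i0 j) = 0) → h = 0) := by
  have e0 : gg i0 0 * gg i0 0 = ey i0 0 := (gy0_eq i0 h2).symm
  have e1 : gg i0 2 * gg i0 2 = ey i0 1 := (gy1_eq i0 h2).symm
  refine ex34 (k := k) (fun j => MulOpposite.op (gg i0 j))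
    (fun i j => MulOpposite.op (mm i0 i j)) ?_ (fun _ => 1) ?_ ?_ ?_ ?_
  · intro b hb
    obtain ⟨g, hg⟩ := exL1 i0 h2 (fun j => (b j).unop) (by
      have := congrArg MulOpposite.unop hb
      simpa only [Finset.unop_sum, MulOpposite.unop_mul, MulOpposite.unop_op,
        MulOpposite.unop_zero] using this)
    refine ⟨fun i => MulOpposite.op (g i), fun j => ?_⟩
    have := congrArg MulOpposite.op (hg j)
    simpa only [Finset.op_sum, MulOpposite.op_mul, MulOpposite.op_unop] using this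
  · intro j
    rw [one_smul, ← MulOpposite.op_mul, e0, ← MulOpposite.op_mul, ← MulOpposite.op_mul,
      x_X i0 h2 j 0]
  · rw [← MulOpposite.op_mul, ← MulOpposite.op_mul, e0, e1, ← MulOpposite.op_mul,
      ← MulOpposite.op_mul, ey_central i0 h2 1 _]
  · intro h hh
    have := congrArg MulOpposite.unop hh
    simp only [MulOpposite.unop_mul, MulOpposite.unop_op, MulOpposite.unop_zero] at this
    rw [show gx k (mu1 k) (MM i0) 0 * gx k (mu1 k) (MM i0) 0 = ey i0 0 from e0] at this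
    exact MulOpposite.unop_injective ((regs i0 h2).1 _ this)
  · intro h h' hh
    have := congrArg MulOpposite.unop hh
    simp only [MulOpposite.unop_mul, MulOpposite.unop_op] at this
    rw [show gx k (mu1 k) (MM i0) 0 * gx k (mu1 k) (MM i0) 0 = ey i0 0 from e0,
      show gx k (mu1 k) (MM i0) 2 * gx k (mu1 k) (MM i0) 2 = ey i0 1 from e1] at this
    obtain ⟨z, hz⟩ := (regs i0 h2).2 _ _ this
    refine ⟨MulOpposite.op z, ?_⟩
    apply MulOpposite.unop_injective
    simp only [MulOpposite.unop_mul, MulOpposite.unop_op]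
    rw [show gx k (mu1 k) (MM i0) 0 * gx k (mu1 k) (MM i0) 0 = ey i0 0 from e0]
    exact hz

theorem mm_mem (i : Fin 6) (l : Fin 4) : mm i0 i l ∈ ggr k (mu1 k) (MM i0) 1 := by
  rw [mm, rowL]
  exact Submodule.sum_mem _ fun j _ => Submodule.smul_mem _ _ (gx_mem _ _ j)

theorem mm'_mem (i : Fin 6) (l : Fin 4) : mm' i0 hi i l ∈ ggr k (mu1 k) (MM i0) 1 :=
  Submodule.sum_mem _ fun j _ => Submodule.smul_mem _ _ (mm_mem i0 j l)

include h2 h5 in
theorem leftKos : LeftKos (gg i0) (mm i0) (mm' i0 hi) :=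
  Pool.Agent.W655.PM.eul k (AA i0) (ggr k (mu1 k) (MM i0)) (gg i0) (mm i0) (mm' i0 hi)
    (conn_AA i0 h2) (finrank_AA i0 h2) (gx_mem _ _) (mm_mem i0) (mm'_mem i0 hi)
    (fun n a ha => gen1 (conn_AA i0 h2) _ (adjoin_AA i0 h2) (gx_mem _ _) n a ha)
    (mm_x i0 h2) (mm'_mm i0 h2 hi) (x_mm' i0 h2 hi) (exL1 i0 h2)
    (exL34 i0 h2 h5 hi).1 (exL34 i0 h2 h5 hi).2

include h2 h5 in
theorem rightKos :
    LeftKos (fun j => MulOpposite.op (gg i0 j)) (fun i j => MulOpposite.op (mm' i0 hi i j))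
      (fun i j => MulOpposite.op (mm i0 i j)) := by
  apply Pool.Agent.W655.PM.eul k (AA i0)ᵐᵒᵖ (opGr (ggr k (mu1 k) (MM i0))) _ _ _
    (conn_AA i0 h2).op
  · intro n
    rw [finrank_opGr, finrank_AA i0 h2]
  · intro j; rw [mem_opGr]; exact gx_mem _ _ j
  · intro i j; rw [mem_opGr]; exact mm'_mem i0 hi i j
  · intro i j; rw [mem_opGr]; exact mm_mem i0 i j
  · intro n a ha
    exact gen1 (conn_AA i0 h2).op _ (isPres_AA i0 h2).op.gen
      (fun j => by rw [mem_opGr]; exact gx_mem _ _ j) n a ha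
  · intro i
    have := congrArg MulOpposite.op (x_mm' i0 h2 hi i)
    simpa only [Finset.op_sum, MulOpposite.op_mul, MulOpposite.op_zero] using this
  · intro j l
    have := congrArg MulOpposite.op (mm'_mm i0 h2 hi l j)
    simpa only [Finset.op_sum, MulOpposite.op_mul, MulOpposite.op_zero] using this
  · intro i
    have := congrArg MulOpposite.op (mm_x i0 h2 i)
    simpa only [Finset.op_sum, MulOpposite.op_mul, MulOpposite.op_zero] using this
  · intro f hf
    obtain ⟨g, hg⟩ := exR1 i0 h2 h5 hi (fun j => (f j).unop) (by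
      have := congrArg MulOpposite.unop hf
      simpa only [Finset.unop_sum, MulOpposite.unop_mul, MulOpposite.unop_op,
        MulOpposite.unop_zero] using this)
    refine ⟨fun i => MulOpposite.op (g i), fun j => ?_⟩
    have := congrArg MulOpposite.op (hg j)
    simpa only [Finset.op_sum, MulOpposite.op_mul, MulOpposite.op_unop] using this
  · exact (exR34 i0 h2).1
  · exact (exR34 i0 h2).2

end

end Pool.Agent.V5helper30.PM
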