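import Pool.Agent.V5helper30.PM.Alg

/-!
# The two points
-/

universe u

namespace Pool.Agent.V5helper30.PM

open Pool.Agent.W506.PM
open scoped LinearAlgebra.Projectivization

variable {k : Type u} [Field k]

/-- The six equations. -/
def Eqs (i0 : k) (p q : Fin 4 → k) : Prop :=
  p 0 * q 2 + p 2 * q 0 = 0 ∧
  p 1 * q 2 + p 2 * q 1 + p 0 * q 1 + p 1 * q 0 = 0 ∧
  p 0 * q 3 + p 3 * q 0 - 2 * i0 * (p 2 * q 2) - (p 0 * q 1 + p 1 * q 0) = 0 ∧
  p 2 * q 3 + p 3 * q 2 - 2 * (p 0 * q 0) - (p 0 * q 1 + p 1 * q 0) = 0 ∧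
  p 1 * q 1 - p 0 * q 0 - (3 + 2 * i0) * (p 2 * q 2) + (1 - i0) * (p 0 * q 1 + p 1 * q 0) = 0 ∧
  p 3 * q 3 + (6 - 2 * i0) * (p 0 * q 0) + (2 + 4 * i0) * (p 2 * q 2)
    + 2 * (p 0 * q 1 + p 1 * q 0) = 0

theorem zero_iff (i0 : k) (p q : Fin 4 → k) : Zero (rr i0) p q ↔ Eqs i0 p q := by
  constructor
  · intro h
    have h0 := h 0
    have h1 := h 1
    have h2 := h 2
    have h3 := h 3
    have h4 := h 4
    have h5 := h 5
    simp [Fin.sum_univ_four, rr] at h0 h1 h2 h3 h4 h5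
    refine ⟨?_, ?_, ?_, ?_, ?_, ?_⟩
    · linear_combination h0
    · linear_combination h1
    · linear_combination h2
    · linear_combination h3
    · linear_combination h4
    · linear_combination h5
  · rintro ⟨h0, h1, h2, h3, h4, h5⟩ i
    fin_cases i
    · simp [Fin.sum_univ_four, rr]; linear_combination h0
    · simp [Fin.sum_univ_four, rr]; linear_combination h1
    · simp [Fin.sum_univ_four, rr]; linear_combination h2
    · simp [Fin.sum_univ_four, rr]; linear_combination h3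
    · simp [Fin.sum_univ_four, rr]; linear_combination h4
    · simp [Fin.sum_univ_four, rr]; linear_combination h5

/-- The key computation: no solution with `q_0 = p_0`, `q_2 = -p_2`, not both zero. -/
theorem key_aux (h2 : (2 : k) ≠ 0) (i0 : k) (hi : i0 ^ 2 = -1) (B F p1 p3 q1 q3 : k)
    (hBF : ¬ (B = 0 ∧ F = 0))
    (e1 : p1 * (B - F) + q1 * (B + F) = 0)
    (e2 : B * (p3 + q3) + 2 * i0 * F ^ 2 - B * (p1 + q1) = 0)
    (e3 : F * (q3 - p3) - 2 * B ^ 2 - B * (p1 + q1) = 0)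
    (e4 : p1 * q1 - B ^ 2 + (3 + 2 * i0) * F ^ 2 + (1 - i0) * (B * (p1 + q1)) = 0)
    (e5 : p3 * q3 + (6 - 2 * i0) * B ^ 2 - (2 + 4 * i0) * F ^ 2 + 2 * (B * (p1 + q1)) = 0) :
    False := by
  have hi0 : i0 ≠ 0 := by rintro rfl; norm_num at hi
  have hs : ∃ s, p1 = s * (B + F) ∧ q1 = s * (F - B) := by
    by_cases hp : B + F = 0
    · have hm : F - B ≠ 0 := by
        intro hm
        apply hBF
        have hF : 2 * F = 0 := by linear_combination hp + hm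
        have hF' : F = 0 := (mul_eq_zero.1 hF).resolve_left h2
        exact ⟨by rw [hF'] at hp; simpa using hp, hF'⟩
      refine ⟨q1 / (F - B), ?_, by field_simp⟩
      rw [hp, mul_zero]
      have : p1 * (F - B) = 0 := by linear_combination q1 * hp - e1
      exact (mul_eq_zero.1 this).resolve_right hm
    · refine ⟨p1 / (B + F), by field_simp, ?_⟩
      field_simp
      linear_combination e1
  obtain ⟨s, rfl, rfl⟩ := hs
  have hU : B * (p3 + q3) = -2 * i0 * F ^ 2 + 2 * s * B * F := by linear_combination e2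
  have hV : F * (q3 - p3) = 2 * B ^ 2 + 2 * s * B * F := by linear_combination e3
  have hE5 : s ^ 2 * (F ^ 2 - B ^ 2) - B ^ 2 + (3 + 2 * i0) * F ^ 2 + (2 - 2 * i0) * s * B * F
      = 0 := by linear_combination e4
  have hR5 : p3 * q3 = (-6 + 2 * i0) * B ^ 2 + (2 + 4 * i0) * F ^ 2 - 4 * s * B * F := by
    linear_combination e5
  have hB : B ≠ 0 := by
    rintro rfl
    have hF : F ≠ 0 := fun hF => hBF ⟨rfl, hF⟩
    have : 2 * i0 * F ^ 2 = 0 := by linear_combination hU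
    exact mul_ne_zero (mul_ne_zero h2 hi0) (pow_ne_zero 2 hF) this
  have hF : F ≠ 0 := by
    rintro rfl
    have : 2 * B ^ 2 = 0 := by linear_combination -hV
    exact mul_ne_zero h2 (pow_ne_zero 2 hB) this
  have h4 : (4 : k) ≠ 0 := by
    have : (4 : k) = 2 * 2 := by norm_num
    rw [this]; exact mul_ne_zero h2 h2
  set D : k := -2 * i0 * B * F * (F ^ 2 - B ^ 2) * (F ^ 2 + i0 * B ^ 2) with hD
  set N : k := F ^ 6 + (5 + 6 * i0) * B ^ 2 * F ^ 4 - (7 - 2 * i0) * B ^ 4 * F ^ 2 + B ^ 6 with hN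
  have hE7 : s * D = N := by
    have h : 4 * (s * D - N) = 0 := by
      have e6 : F ^ 2 * (-2 * i0 * F ^ 2 + 2 * s * B * F) ^ 2
          - B ^ 2 * (2 * B ^ 2 + 2 * s * B * F) ^ 2
          = 4 * B ^ 2 * F ^ 2 * ((-6 + 2 * i0) * B ^ 2 + (2 + 4 * i0) * F ^ 2 - 4 * s * B * F) := by
        rw [← hU, ← hV, ← hR5]; ring
      rw [hD, hN]
      linear_combination e6 - 4 * B ^ 2 * F ^ 2 * hE5
        - ((-8) * B ^ 5 * F * s + 8 * B ^ 3 * F ^ 3 * s + 4 * F ^ 6) * hi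
    have := (mul_eq_zero.1 h).resolve_left h4
    exact sub_eq_zero.1 this
  have h7 : (F ^ 2 - B ^ 2) ^ 7 = 0 := by
    have hW : (F ^ 2 - B ^ 2) ^ 7 = N * N * (F ^ 2 - B ^ 2) + (2 - 2 * i0) * B * F * N * D
        + D * D * ((3 + 2 * i0) * F ^ 2 - B ^ 2) := by
      rw [hD, hN]
      linear_combination ((4) * B ^ 12 * F ^ 2 * i0 ^ 2 + (4) * B ^ 12 * F ^ 2 * i0
        + (-8) * B ^ 12 * F ^ 2 + (-8) * B ^ 10 * F ^ 4 * i0 ^ 3 + (-12) * B ^ 10 * F ^ 4 * i0 ^ 2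
        + (-24) * B ^ 10 * F ^ 4 * i0 + (52) * B ^ 10 * F ^ 4 + (16) * B ^ 8 * F ^ 6 * i0 ^ 3
        + (28) * B ^ 8 * F ^ 6 * i0 ^ 2 + (-16) * B ^ 8 * F ^ 6 * i0 + (-92) * B ^ 8 * F ^ 6
        + (-8) * B ^ 6 * F ^ 8 * i0 ^ 3 + (-4) * B ^ 6 * F ^ 8 * i0 ^ 2 + (80) * B ^ 6 * F ^ 8 * i0
        + (44) * B ^ 6 * F ^ 8 + (-16) * B ^ 4 * F ^ 10 * i0 ^ 2 + (-36) * B ^ 4 * F ^ 10 * i0
        + (20) * B ^ 4 * F ^ 10 + (-8) * B ^ 2 * F ^ 12 * i0 + (-16) * B ^ 2 * F ^ 12) * hi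
    rw [hW, ← hE7]
    linear_combination D ^ 2 * hE5
  have h8 : F ^ 2 - B ^ 2 = 0 := pow_eq_zero_iff (by norm_num) |>.1 h7
  have hN0 : N = 0 := by rw [← hE7, hD, h8]; ring
  have hFB : F ^ 2 = B ^ 2 := sub_eq_zero.1 h8
  have hN1 : N = 8 * i0 * B ^ 6 := by
    rw [hN, show F ^ 6 = (F ^ 2) ^ 3 by ring, show F ^ 4 = (F ^ 2) ^ 2 by ring, hFB]; ring
  have h8' : (8 : k) ≠ 0 := by
    have : (8 : k) = 4 * 2 := by norm_num
    rw [this]; exact mul_ne_zero h4 h2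
  exact mul_ne_zero (mul_ne_zero h8' hi0) (pow_ne_zero 6 hB) (hN1 ▸ hN0)

/-- The solutions. -/
theorem sols (h2 : (2 : k) ≠ 0) (i0 : k) (hi : i0 ^ 2 = -1) (p q : Fin 4 → k) (hp : p ≠ 0)
    (hq : q ≠ 0) (h : Eqs i0 p q) :
    p 0 = 0 ∧ p 2 = 0 ∧ q 0 = 0 ∧ q 2 = 0 ∧
      ((p 1 = 0 ∧ q 3 = 0 ∧ p 3 ≠ 0 ∧ q 1 ≠ 0) ∨ (p 3 = 0 ∧ q 1 = 0 ∧ p 1 ≠ 0 ∧ q 3 ≠ 0)) := by
  obtain ⟨e0, e1, e2, e3, e4, e5⟩ := h
  have hne : ∀ {v : Fin 4 → k}, v ≠ 0 → v 0 = 0 → v 2 = 0 → ¬ (v 1 = 0 ∧ v 3 = 0) := by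
    rintro v hv h0 h2 ⟨h1, h3⟩
    apply hv
    funext j
    fin_cases j <;> assumption
  -- one of the two is zero in coordinates `0, 2`
  have half : ∀ {p q : Fin 4 → k}, p ≠ 0 → Eqs i0 p q → p 0 = 0 → p 2 = 0 →
      q 0 = 0 ∧ q 2 = 0 := by
    rintro p q hp ⟨e0, e1, e2, e3, e4, e5⟩ h0 h2'
    rw [h0, h2'] at e1 e2 e3
    have a1 : p 1 * (q 0 + q 2) = 0 := by linear_combination e1
    have a2 : q 0 * (p 3 - p 1) = 0 := by linear_combination e2
    have a3 : p 3 * q 2 - p 1 * q 0 = 0 := by linear_combination e3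
    by_cases h1 : p 1 = 0
    · have h3 : p 3 ≠ 0 := fun h3 => hne hp h0 h2' ⟨h1, h3⟩
      rw [h1] at a2 a3
      constructor
      · have : q 0 * p 3 = 0 := by linear_combination a2
        exact (mul_eq_zero.1 this).resolve_right h3
      · have : p 3 * q 2 = 0 := by linear_combination a3
        exact (mul_eq_zero.1 this).resolve_left h3
    · have b1 : q 0 + q 2 = 0 := (mul_eq_zero.1 a1).resolve_left h1
      have b2 : q 2 = -q 0 := by linear_combination b1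
      by_cases h0' : q 0 = 0
      · exact ⟨h0', by rw [b2, h0', neg_zero]⟩
      · exfalso
        have b3 : p 3 - p 1 = 0 := (mul_eq_zero.1 a2).resolve_left h0'
        have : 2 * (p 1 * q 0) = 0 := by
          rw [b2] at a3
          linear_combination -a3 - q 0 * b3
        exact mul_ne_zero h2 (mul_ne_zero h1 h0') this
  have hsym : Eqs i0 q p := by
    refine ⟨?_, ?_, ?_, ?_, ?_, ?_⟩
    · linear_combination e0
    · linear_combination e1
    · linear_combination e2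
    · linear_combination e3
    · linear_combination e4
    · linear_combination e5
  have fin : p 0 = 0 → p 2 = 0 → q 0 = 0 → q 2 = 0 → p 0 = 0 ∧ p 2 = 0 ∧ q 0 = 0 ∧ q 2 = 0 ∧
      ((p 1 = 0 ∧ q 3 = 0 ∧ p 3 ≠ 0 ∧ q 1 ≠ 0) ∨ (p 3 = 0 ∧ q 1 = 0 ∧ p 1 ≠ 0 ∧ q 3 ≠ 0)) := by
    intro h0 h2' h0' h2''
    refine ⟨h0, h2', h0', h2'', ?_⟩
    rw [h0, h2', h0', h2''] at e4 e5
    have f4 : p 1 * q 1 = 0 := by linear_combination e4
    have f5 : p 3 * q 3 = 0 := by linear_combination e5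
    have np := hne hp h0 h2'
    have nq := hne hq h0' h2''
    rcases mul_eq_zero.1 f4 with g4 | g4 <;> rcases mul_eq_zero.1 f5 with g5 | g5
    · exact absurd ⟨g4, g5⟩ np
    · exact Or.inl ⟨g4, g5, fun h => np ⟨g4, h⟩, fun h => nq ⟨h, g5⟩⟩
    · exact Or.inr ⟨g5, g4, fun h => np ⟨h, g5⟩, fun h => nq ⟨g4, h⟩⟩
    · exact absurd ⟨g4, g5⟩ nq
  by_cases hp0 : p 0 = 0 ∧ p 2 = 0
  · obtain ⟨a, b⟩ := half hp ⟨e0, e1, e2, e3, e4, e5⟩ hp0.1 hp0.2
    exact fin hp0.1 hp0.2 a b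
  by_cases hq0 : q 0 = 0 ∧ q 2 = 0
  · obtain ⟨a, b⟩ := half hq hsym hq0.1 hq0.2
    exact fin a b hq0.1 hq0.2
  exfalso
  -- scale `q`
  have ht : ∃ t, t ≠ 0 ∧ q 0 = t * p 0 ∧ q 2 = -(t * p 2) := by
    by_cases h0 : p 0 = 0
    · have hp2 : p 2 ≠ 0 := fun h => hp0 ⟨h0, h⟩
      have hq0' : q 0 = 0 := by
        rw [h0] at e0
        have : p 2 * q 0 = 0 := by linear_combination e0
        exact (mul_eq_zero.1 this).resolve_left hp2
      have hq2 : q 2 ≠ 0 := fun h => hq0 ⟨hq0', h⟩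
      refine ⟨-q 2 / p 2, div_ne_zero (neg_ne_zero.2 hq2) hp2, by rw [h0, hq0', mul_zero], ?_⟩
      field_simp
    · have hq0' : q 0 ≠ 0 := by
        intro h
        rw [h] at e0
        have : p 0 * q 2 = 0 := by linear_combination e0
        exact hq0 ⟨h, (mul_eq_zero.1 this).resolve_left h0⟩
      refine ⟨q 0 / p 0, div_ne_zero hq0' h0, by field_simp, ?_⟩
      field_simp
      linear_combination e0
  obtain ⟨t, ht, hq0', hq2'⟩ := ht
  rw [hq0', hq2'] at e1 e2 e3 e4 e5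
  have ht1 : q 1 = t * (q 1 / t) := by field_simp
  have ht3 : q 3 = t * (q 3 / t) := by field_simp
  rw [ht1] at e1 e2 e3 e4 e5
  rw [ht3] at e2 e3 e5
  set u := q 1 / t
  set v := q 3 / t
  apply key_aux h2 i0 hi (p 0) (p 2) (p 1) (p 3) u v hp0
  · have : t * (p 1 * (p 0 - p 2) + u * (p 0 + p 2)) = 0 := by linear_combination e1
    exact (mul_eq_zero.1 this).resolve_left ht
  · have : t * (p 0 * (p 3 + v) + 2 * i0 * p 2 ^ 2 - p 0 * (p 1 + u)) = 0 := by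
      linear_combination e2
    exact (mul_eq_zero.1 this).resolve_left ht
  · have : t * (p 2 * (v - p 3) - 2 * p 0 ^ 2 - p 0 * (p 1 + u)) = 0 := by
      linear_combination e3
    exact (mul_eq_zero.1 this).resolve_left ht
  · have : t * (p 1 * u - p 0 ^ 2 + (3 + 2 * i0) * p 2 ^ 2 + (1 - i0) * (p 0 * (p 1 + u)))
        = 0 := by
      linear_combination e4
    exact (mul_eq_zero.1 this).resolve_left ht
  · have : t * (p 3 * v + (6 - 2 * i0) * p 0 ^ 2 - (2 + 4 * i0) * p 2 ^ 2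
        + 2 * (p 0 * (p 1 + u))) = 0 := by
      linear_combination e5
    exact (mul_eq_zero.1 this).resolve_left ht

/-- first unit vector -/
def v1 : Fin 4 → k := ![0, 1, 0, 0]
/-- second unit vector -/
def v3 : Fin 4 → k := ![0, 0, 0, 1]

theorem v1_ne : (v1 : Fin 4 → k) ≠ 0 := fun h => one_ne_zero (congrFun h 1)
theorem v3_ne : (v3 : Fin 4 → k) ≠ 0 := fun h => one_ne_zero (congrFun h 3)

theorem eqs_v1 (i0 : k) (c : k) : Eqs i0 (c • v1) v3 := by
  refine ⟨?_, ?_, ?_, ?_, ?_, ?_⟩ <;> simp [v1, v3]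

theorem eqs_v3 (i0 : k) (c : k) : Eqs i0 (c • v3) v1 := by
  refine ⟨?_, ?_, ?_, ?_, ?_, ?_⟩ <;> simp [v1, v3]

theorem eq_smul_v1 {p : Fin 4 → k} (h0 : p 0 = 0) (h2 : p 2 = 0) (h3 : p 3 = 0) :
    p = p 1 • v1 := by
  funext j; fin_cases j
  · simpa [v1] using h0
  · simp [v1]
  · simpa [v1] using h2
  · simpa [v1] using h3

theorem eq_smul_v3 {p : Fin 4 → k} (h0 : p 0 = 0) (h2 : p 2 = 0) (h1 : p 1 = 0) :
    p = p 3 • v3 := by
  funext j; fin_cases j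
  · simpa [v3] using h0
  · simpa [v3] using h1
  · simpa [v3] using h2
  · simp [v3]

theorem pts (h2 : (2 : k) ≠ 0) (i0 : k) (hi : i0 ^ 2 = -1) :
    Nat.card {P : ℙ k (Fin 4 → k) // ∃ q : Fin 4 → k, q ≠ 0 ∧ Eqs i0 P.rep q} = 2 ∧
    (∀ p q q' : Fin 4 → k, p ≠ 0 → q ≠ 0 → q' ≠ 0 → Eqs i0 p q → Eqs i0 p q' →
      ∃ c : k, q' = c • q) ∧
    (∀ p q : Fin 4 → k, p ≠ 0 → q ≠ 0 → Eqs i0 p q → ∃ s : Fin 4 → k, s ≠ 0 ∧ Eqs i0 q s) := by
  refine ⟨?_, ?_, ?_⟩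
  · have hset : {P : ℙ k (Fin 4 → k) | ∃ q : Fin 4 → k, q ≠ 0 ∧ Eqs i0 P.rep q}
        = {Projectivization.mk k v1 v1_ne, Projectivization.mk k v3 v3_ne} := by
      ext P
      simp only [Set.mem_ofPred_eq, Set.mem_insert_iff, Set.mem_singleton_iff]
      constructor
      · rintro ⟨q, hq, he⟩
        obtain ⟨h0, h2', -, -, h | h⟩ := sols h2 i0 hi P.rep q P.rep_nonzero hq he
        · right
          rw [← P.mk_rep, Projectivization.mk_eq_mk_iff']
          exact ⟨P.rep 3, (eq_smul_v3 h0 h2' h.1).symm⟩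
        · left
          rw [← P.mk_rep, Projectivization.mk_eq_mk_iff']
          exact ⟨P.rep 1, (eq_smul_v1 h0 h2' h.1).symm⟩
      · rintro (rfl | rfl)
        · refine ⟨v3, v3_ne, ?_⟩
          obtain ⟨c, hc⟩ := (Projectivization.mk_eq_mk_iff' k _ _
            (Projectivization.rep_nonzero _) v1_ne).1 (Projectivization.mk_rep
              (Projectivization.mk k (v1 : Fin 4 → k) v1_ne))
          rw [← hc]; exact eqs_v1 i0 c
        · refine ⟨v1, v1_ne, ?_⟩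
          obtain ⟨c, hc⟩ := (Projectivization.mk_eq_mk_iff' k _ _
            (Projectivization.rep_nonzero _) v3_ne).1 (Projectivization.mk_rep
              (Projectivization.mk k (v3 : Fin 4 → k) v3_ne))
          rw [← hc]; exact eqs_v3 i0 c
    have hne : Projectivization.mk k (v1 : Fin 4 → k) v1_ne ≠ Projectivization.mk k v3 v3_ne := by
      intro h
      obtain ⟨c, hc⟩ := (Projectivization.mk_eq_mk_iff' k _ _ v1_ne v3_ne).1 h
      have := congrFun hc 1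
      simp [v1, v3] at this
    show Nat.card ({P : ℙ k (Fin 4 → k) | ∃ q : Fin 4 → k, q ≠ 0 ∧ Eqs i0 P.rep q} :
      Set (ℙ k (Fin 4 → k))) = 2
    rw [hset, Nat.card_coe_set_eq, Set.ncard_pair hne]
  · intro p q q' hp hq hq' h h'
    obtain ⟨-, -, a0, a2, a | a⟩ := sols h2 i0 hi p q hp hq h
    · obtain ⟨-, -, b0, b2, b | b⟩ := sols h2 i0 hi p q' hp hq' h'
      · refine ⟨q' 1 / q 1, ?_⟩
        rw [eq_smul_v1 b0 b2 b.2.1]
        conv_rhs => rw [eq_smul_v1 a0 a2 a.2.1]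
        rw [smul_smul]
        have := a.2.2.2
        congr 1
        simp [v1]
        field_simp
      · exact absurd a.1 b.2.2.1
    · obtain ⟨-, -, b0, b2, b | b⟩ := sols h2 i0 hi p q' hp hq' h'
      · exact absurd b.1 a.2.2.1
      · refine ⟨q' 3 / q 3, ?_⟩
        rw [eq_smul_v3 b0 b2 b.2.1]
        conv_rhs => rw [eq_smul_v3 a0 a2 a.2.1]
        rw [smul_smul]
        have := a.2.2.2
        congr 1
        simp [v3]
        field_simp
  · rintro p q hp hq ⟨e0, e1, e2, e3, e4, e5⟩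
    refine ⟨p, hp, ?_, ?_, ?_, ?_, ?_, ?_⟩
    · linear_combination e0
    · linear_combination e1
    · linear_combination e2
    · linear_combination e3
    · linear_combination e4
    · linear_combination e5

end Pool.Agent.V5helper30.PM
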