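import Pool.Agent.V5helper30.PM.Kos
import Pool.Agent.V5helper30.PM.Pts
import Pool.Agent.W506.PM.Main

/-!
# Assembly: a regular graded Clifford algebra with exactly two point modules
-/

universe u

namespace Pool.Agent.V5helper30.PM

open Pool.Agent.W506.PM
open CategoryTheory Abelian
open scoped LinearAlgebra.Projectivization

theorem main (k : Type u) [Field k] [IsAlgClosed k] (h2 : (2 : k) ≠ 0) (h5 : (5 : k) ≠ 0) :
    ∃ (μ : Fin 4 → Fin 4 → k) (M : Fin 4 → Matrix (Fin 4) (Fin 4) k),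
      IsGSCA k μ M ∧ IsQuadratic (ggr k μ M) ∧ IsASRegular (ggr k μ M) 4 ∧
      Nat.card (PointClasses (ggr k μ M)) = 2 := by
  obtain ⟨i0, hi⟩ := IsAlgClosed.exists_pow_nat_eq (-1 : k) (n := 2) (by norm_num)
  have hP := isPres_AA i0 h2
  have hL := leftKos i0 h2 h5 hi
  have hR := rightKos i0 h2 h5 hi
  have hconn := conn_AA i0 h2
  have hgenL : ∀ n, ∀ a ∈ ggr k (mu1 k) (MM i0) (n + 1), ∃ f : Fin 4 → AA i0,
      a = ∑ j, f j * gg i0 j :=
    fun n a ha => gen1 hconn _ (adjoin_AA i0 h2) (gx_mem _ _) n a ha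
  have hgenR : ∀ n, ∀ a ∈ opGr (ggr k (mu1 k) (MM i0)) (n + 1), ∃ f : Fin 4 → (AA i0)ᵐᵒᵖ,
      a = ∑ j, f j * MulOpposite.op (gg i0 j) :=
    fun n a ha => gen1 hconn.op _ hP.op.gen
      (fun j => by rw [mem_opGr]; exact gx_mem _ _ j) n a ha
  have hgenL' : ∀ n, ∀ a ∈ ggr k (mu1 k) (MM i0) (n + 1), ∃ f : Fin 4 → AA i0,
      a = ∑ j, gg i0 j * f j := by
    intro n a ha
    obtain ⟨f, hf⟩ := hgenR n (MulOpposite.op a) (by rw [mem_opGr]; exact ha)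
    refine ⟨fun j => (f j).unop, ?_⟩
    have := congrArg MulOpposite.unop hf
    simpa only [Finset.unop_sum, MulOpposite.unop_mul, MulOpposite.unop_op] using this
  have hgenR' : ∀ n, ∀ a ∈ opGr (ggr k (mu1 k) (MM i0)) (n + 1), ∃ f : Fin 4 → (AA i0)ᵐᵒᵖ,
      a = ∑ j, MulOpposite.op (gg i0 j) * f j := by
    intro n a ha
    obtain ⟨f, hf⟩ := hgenL n a.unop (mem_opGr.1 ha)
    refine ⟨fun j => MulOpposite.op (f j), ?_⟩
    have := congrArg MulOpposite.op hf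
    simpa only [Finset.op_sum, MulOpposite.op_mul, MulOpposite.op_unop] using this
  refine ⟨mu1 k, MM i0, ⟨fun _ _ => one_ne_zero, fun _ _ => mul_one 1, fun _ => rfl, ?_, ?_⟩,
    isQuadratic_of_pres _ hP (gx_mem _ _), ⟨hconn, ⟨27, fun n => ?_⟩, ?_, ?_⟩, ?_⟩
  · intro l i j
    rw [mu1, one_mul]
    fin_cases l <;> fin_cases i <;> fin_cases j <;> rfl
  · refine ⟨gy k (mu1 k) (MM i0), rfl, fun l => ⟨fun a => ⟨a, ?_⟩, fun a => ⟨a, ?_⟩⟩⟩
    · rw [ey_central i0 h2 l a, sub_self]; exact TwoSidedIdeal.zero_mem _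
    · rw [ey_central i0 h2 l a, sub_self]; exact TwoSidedIdeal.zero_mem _
  · rw [finrank_AA i0 h2 n]
    exact growth_aux n
  · obtain ⟨e1, e2, e3⟩ := Pool.Agent.W45.PM.ext k (AA i0) (ggr k (mu1 k) (MM i0)) (gg i0)
      (mm i0) (mm' i0 hi) hconn (gx_mem _ _) hgenL hgenL' hL hR
    exact ⟨Pool.Agent.W991.PMGLD.mainGLD k (AA i0) (ggr k (mu1 k) (MM i0)) (gg i0) (mm i0)
      (mm' i0 hi) hconn (gx_mem _ _) (mm_mem i0) (mm'_mem i0 hi) hgenL hL, e1, e2, e3⟩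
  · have hx : ∀ j, MulOpposite.op (gg i0 j) ∈ opGr (ggr k (mu1 k) (MM i0)) 1 := fun j => by
      rw [mem_opGr]; exact gx_mem _ _ j
    obtain ⟨e1, e2, e3⟩ := Pool.Agent.W45.PM.ext k (AA i0)ᵐᵒᵖ (opGr (ggr k (mu1 k) (MM i0)))
      (fun j => MulOpposite.op (gg i0 j)) (fun i j => MulOpposite.op (mm' i0 hi i j))
      (fun i j => MulOpposite.op (mm i0 i j)) hconn.op hx hgenR hgenR' hR
      (hL.map (RingEquiv.opOp (AA i0)))
    exact ⟨Pool.Agent.W991.PMGLD.mainGLD k (AA i0)ᵐᵒᵖ (opGr (ggr k (mu1 k) (MM i0))) _ _ _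
      hconn.op hx (fun i j => by rw [mem_opGr]; exact mm'_mem i0 hi i j)
      (fun i j => by rw [mem_opGr]; exact mm_mem i0 i j) hgenR hR, e1, e2, e3⟩
  · obtain ⟨c1, c2, c3⟩ := pts h2 i0 hi
    have := Pool.Agent.W428.PMOD.taskPMOD k (AA i0) (ggr k (mu1 k) (MM i0)) 4 6 (gg i0) (rr i0)
      hconn hP (gx_mem _ _) (by simpa only [zero_iff] using c2)
      (by simpa only [zero_iff] using c3)
    simp only [zero_iff] at this
    exact this.trans c1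

end Pool.Agent.V5helper30.PM
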